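import Pool.Agent.H89.TL.Flat

/-!
MP_fd220b_nt, the triangle lemma: letters of the directions, and the box lemma.
-/

set_option autoImplicit false

namespace Pool.Agent.H89.TL

open Finset

variable {p : ℕ}

/-- the multiples `k d`, `0 < |k| < e`, avoid `m` and `n` -/
def Free (d m n : ZMod p) (e : ℕ) : Prop :=
  ∀ k : ℤ, k ≠ 0 → |k| < e → (k : ZMod p) * d ≠ m ∧ (k : ZMod p) * d ≠ n

theorem Free.swap {d m n : ZMod p} {e : ℕ} (h : Free d m n e) : Free d n m e :=
  fun k h1 h2 => ⟨(h k h1 h2).2, (h k h1 h2).1⟩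

theorem Free.flipm {d m n : ZMod p} {e : ℕ} (h : Free d m n e) : Free d (-m) n e := by
  intro k h1 h2
  refine ⟨fun h3 => ?_, (h k h1 h2).2⟩
  refine (h (-k) (neg_ne_zero.2 h1) (by rwa [abs_neg])).1 ?_
  push_cast
  linear_combination -h3

theorem Free.flipn {d m n : ZMod p} {e : ℕ} (h : Free d m n e) : Free d m (-n) e :=
  h.swap.flipm.swap

section

variable [NeZero p]

theorem exists_letter {d m : ZMod p} (n : ZMod p) (hd : IsUnit d) (hm : m ≠ 0) :
    ∃ e : ℕ, 0 < e ∧ e < p ∧ Free d m n e ∧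
      (((e : ZMod p) * d = m ∨ (e : ZMod p) * d = -m) ∨ ((e : ZMod p) * d = n ∨ (e : ZMod p) * d = -n)) := by
  classical
  obtain ⟨k, hk, hkm⟩ := exists_nat hd 0 m
  rw [zero_add] at hkm
  have hk0 : 0 < k := by
    rcases Nat.eq_zero_or_pos k with h | h
    · exfalso
      rw [h, Nat.cast_zero, zero_mul] at hkm
      exact hm hkm
    · exact h
  have hex : ∃ e : ℕ, 0 < e ∧
      (((e : ZMod p) * d = m ∨ (e : ZMod p) * d = -m) ∨ ((e : ZMod p) * d = n ∨ (e : ZMod p) * d = -n)) :=
    ⟨k, hk0, Or.inl (Or.inl hkm.symm)⟩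
  have h1 := Nat.find_spec hex
  have h2 : Nat.find hex ≤ k := Nat.find_min' hex ⟨hk0, Or.inl (Or.inl hkm.symm)⟩
  refine ⟨Nat.find hex, h1.1, by omega, ?_, h1.2⟩
  intro l hl0 hl
  have key : ∀ y : ZMod p, (l : ZMod p) * d = y → ∃ t : ℕ, 0 < t ∧ t < Nat.find hex ∧
      ((t : ZMod p) * d = y ∨ (t : ZMod p) * d = -y) := by
    intro y hy
    rw [abs_lt] at hl
    obtain ⟨t, rfl | rfl⟩ := Int.eq_nat_or_neg l
    · refine ⟨t, by omega, by omega, Or.inl ?_⟩
      push_cast at hy
      exact hy
    · refine ⟨t, by omega, by omega, Or.inr ?_⟩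
      push_cast at hy
      linear_combination -hy
  constructor
  · intro h6
    obtain ⟨t, t1, t2, t3⟩ := key m h6
    exact Nat.find_min hex t2 ⟨t1, Or.inl t3⟩
  · intro h6
    obtain ⟨t, t1, t2, t3⟩ := key n h6
    exact Nat.find_min hex t2 ⟨t1, Or.inr t3⟩

theorem nat_mul_ne {d : ZMod p} (hd : IsUnit d) {i : ℕ} (h0 : 0 < i) (h1 : i < p) : (i : ZMod p) * d ≠ 0 := by
  intro h
  have h2 : (i : ZMod p) = 0 := (hd.mul_left_eq_zero).1 h
  rw [ZMod.natCast_eq_zero_iff] at h2
  exact absurd (Nat.le_of_dvd h0 h2) (by omega)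

theorem diff_formula {d z m n : ZMod p} {τ : ℤ} {u : ℕ} (hd : IsUnit d) (hu : (u : ZMod p) * d = m)
    {f : ZMod p → ℤ} (h : ∀ x, f x - f (x - d) = τ * chg z m n x) (hs : ∑ x : ZMod p, f x = 0) (x : ZMod p) :
    f x = τ * (seg d z u x - seg d (z + n) u x) := by
  refine eq_of_diff hd (g := fun x => τ * (seg d z u x - seg d (z + n) u x)) (fun y => ?_) ?_ x
  · rw [h y]
    have h1 := seg_diff d z u y
    have h2 := seg_diff d (z + n) u y
    rw [hu] at h1 h2
    have e : z + n + m = z + m + n := by ring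
    rw [e] at h2
    unfold chg
    linear_combination (-τ) * h1 + τ * h2
  · rw [hs, ← Finset.mul_sum, Finset.sum_sub_distrib, sum_seg, sum_seg, sub_self, mul_zero]

end

namespace Flat3

variable [NeZero p] {d1 d2 d3 : ZMod p} {N1 N2 N3 : ZMod p → ℤ} {K : ℤ} {z m n : ZMod p} {τ : ℤ}

/-- the formula for `e1` -/
theorem f1 (H : Flat3 d1 d2 d3 N1 N2 N3 K z m n τ) {a : ℕ} (ha : (a : ZMod p) * d1 = m) (x : ZMod p) :
    N2 (x + d3) - N2 x = τ * (seg d1 z a x - seg d1 (z + n) a x) := by
  refine diff_formula H.h1 ha (f := fun x => N2 (x + d3) - N2 x) H.ch ?_ x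
  rw [Finset.sum_sub_distrib]
  have h := Equiv.sum_comp (Equiv.addRight d3) N2
  simp only [Equiv.coe_addRight] at h
  rw [h, sub_self]

/-- segments of a short length do not meet -/
theorem disj (H : Flat3 d1 d2 d3 N1 N2 N3 K z m n τ) {d : ZMod p} {a : ℕ} (hF : Free d m n a) {i j : ℕ}
    (hi : i < a) (hj : j < a) {x y : ZMod p} (h1 : x = y + (i : ZMod p) * d) (h2 : x = y + n + (j : ZMod p) * d) : False := by
  have h3 : (((i : ℤ) - j : ℤ) : ZMod p) * d = n := by
    push_cast
    linear_combination h2 - h1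
  by_cases h : (i : ℤ) - j = 0
  · rw [h, Int.cast_zero, zero_mul] at h3
    exact H.hn h3.symm
  · refine (hF _ h ?_).2 h3
    rw [abs_lt]
    constructor <;> omega

theorem e1_ne (H : Flat3 d1 d2 d3 N1 N2 N3 K z m n τ) {a : ℕ} (ha : (a : ZMod p) * d1 = m) (hF : Free d1 m n a)
    {i : ℕ} (hi : i < a) {x : ZMod p} (hx : x = z + (i : ZMod p) * d1 ∨ x = z + n + (i : ZMod p) * d1) :
    N2 (x + d3) - N2 x ≠ 0 := by
  rw [H.f1 ha]
  have ht : τ ≠ 0 := by
    rcases H.ht with h | h <;> rw [h] <;> norm_num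
  refine mul_ne_zero ht ?_
  rcases hx with hx | hx
  · have h1 := seg_mem hi hx
    have h2 : seg d1 (z + n) a x = 0 := seg_zero fun j hj h => H.disj hF hi hj hx h
    omega
  · have h1 := seg_mem hi hx
    have h2 : seg d1 z a x = 0 := seg_zero fun j hj h => H.disj hF hj hi h hx
    omega

/-- a common point carries a charge -/
theorem charge (H : Flat3 d1 d2 d3 N1 N2 N3 K z m n τ) {x : ZMod p} (h1 : N2 (x + d3) - N2 x ≠ 0)
    (h2 : N1 (x + d2) - N1 x ≠ 0) : x = z ∨ x = z + m ∨ x = z + n ∨ x = z + m + n := by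
  by_contra h
  push Not at h
  rcases H.nc x (chg_zero h.1 h.2.1 h.2.2.1 h.2.2.2) with h3 | h3
  · exact h1 h3
  · rw [H.e3] at h2
    exact h2 h3

/-- the box lemma, canonical signs -/
theorem box_aux (H : Flat3 d1 d2 d3 N1 N2 N3 K z m n τ) {a b : ℕ} (hap : a < p) (hbp : b < p)
    (ha : (a : ZMod p) * d1 = m) (hb : (b : ZMod p) * d3 = -n) (fa : Free d1 m n a) (fb : Free d3 m n b)
    {i j : ℤ} (hi : |i| ≤ a) (hj : |j| ≤ b) (hij : (i : ZMod p) * d1 = (j : ZMod p) * d3) : i = 0 ∧ j = 0 := by
  have H3 := H.rot.rot.flipn.swap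
  have ez : z - d1 - d2 = z + d3 := by linear_combination -H.sum
  rw [ez] at H3
  have n3 : ∀ k : ℕ, k < b → ∀ x : ZMod p, x = z + d3 + n + (k : ZMod p) * d3 → N1 (x + d2) - N1 x ≠ 0 :=
    fun k hk x hx => H3.e1_ne hb fb.flipn.swap hk (Or.inl hx)
  have part1 : ∀ i j : ℕ, i < a → j < b → (i : ZMod p) * d1 = -((j : ZMod p) * d3) → i = 0 ∧ j = 0 := by
    intro i j hi hj h
    rcases Nat.eq_zero_or_pos i with hi0 | hi0
    · refine ⟨hi0, ?_⟩
      rcases Nat.eq_zero_or_pos j with hj0 | hj0
      · exact hj0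
      · exfalso
        rw [hi0, Nat.cast_zero, zero_mul] at h
        exact nat_mul_ne H.h3 hj0 (by omega) (by linear_combination h)
    · exfalso
      have q1 := H.e1_ne ha fa hi (x := z + (i : ZMod p) * d1) (Or.inl rfl)
      have q2 := n3 (b - 1 - j) (by omega) (z + (i : ZMod p) * d1) (by
        rw [Nat.cast_sub (by omega), Nat.cast_sub (by omega), Nat.cast_one]
        linear_combination h - hb)
      rcases H.charge q1 q2 with h1 | h1 | h1 | h1
      · exact nat_mul_ne H.h1 hi0 (by omega) (by linear_combination h1)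
      · exact (fa i (by omega) (by rw [abs_lt]; omega)).1 (by push_cast; linear_combination h1)
      · exact (fa i (by omega) (by rw [abs_lt]; omega)).2 (by push_cast; linear_combination h1)
      · exact (fa (i - a) (by omega) (by rw [abs_lt]; omega)).2 (by push_cast; linear_combination h1 - ha)
  have part2 : ∀ i j : ℕ, i < a → 0 < j → j ≤ b → (i : ZMod p) * d1 = (j : ZMod p) * d3 → False := by
    intro i j hi hj0 hj h
    have q1 := H.e1_ne ha fa hi (x := z + n + (i : ZMod p) * d1) (Or.inr rfl)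
    have q2 := n3 (j - 1) (by omega) (z + n + (i : ZMod p) * d1) (by
      rw [Nat.cast_sub (by omega), Nat.cast_one]
      linear_combination h)
    rcases H.charge q1 q2 with h1 | h1 | h1 | h1
    · rcases Nat.eq_zero_or_pos i with hi0 | hi0
      · rw [hi0, Nat.cast_zero, zero_mul] at h1
        exact H.hn (by linear_combination h1)
      · exact (fa (-i) (by omega) (by rw [abs_lt]; omega)).2 (by push_cast; linear_combination -h1)
    · rcases Nat.eq_zero_or_pos i with hi0 | hi0
      · rw [hi0, Nat.cast_zero, zero_mul] at h1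
        exact H.m_ne_n (by linear_combination -h1)
      · exact (fa (a - i) (by omega) (by rw [abs_lt]; omega)).2 (by push_cast; linear_combination ha - h1)
    · rcases Nat.eq_zero_or_pos i with hi0 | hi0
      · rw [hi0, Nat.cast_zero, zero_mul] at h
        exact nat_mul_ne H.h3 hj0 (by omega) h.symm
      · exact nat_mul_ne H.h1 hi0 (by omega) (by linear_combination h1)
    · rcases Nat.eq_zero_or_pos i with hi0 | hi0
      · rw [hi0, Nat.cast_zero, zero_mul] at h1
        exact H.hm (by linear_combination -h1)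
      · exact (fa i (by omega) (by rw [abs_lt]; omega)).1 (by push_cast; linear_combination h1)
  have key : ∀ i j : ℕ, i ≤ a → j ≤ b → ((i : ZMod p) * d1 = (j : ZMod p) * d3 ∨ (i : ZMod p) * d1 = -((j : ZMod p) * d3)) →
      i = 0 ∧ j = 0 := by
    intro i j hi hj h
    rcases Nat.lt_or_ge i a with h1 | h1
    · rcases h with h | h
      · rcases Nat.eq_zero_or_pos j with hj0 | hj0
        · refine ⟨?_, hj0⟩
          rcases Nat.eq_zero_or_pos i with hi0 | hi0
          · exact hi0
          · exfalso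
            rw [hj0, Nat.cast_zero, zero_mul] at h
            exact nat_mul_ne H.h1 hi0 (by omega) h
        · exact absurd (part2 i j h1 hj0 hj h) id
      · rcases Nat.lt_or_ge j b with h2 | h2
        · exact part1 i j h1 h2 h
        · exfalso
          have h3 : j = b := by omega
          rw [h3, hb, neg_neg] at h
          rcases Nat.eq_zero_or_pos i with hi0 | hi0
          · rw [hi0, Nat.cast_zero, zero_mul] at h
            exact H.hn h.symm
          · exact (fa i (by omega) (by rw [abs_lt]; omega)).2 (by push_cast; exact h)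
    · exfalso
      have h3 : i = a := by omega
      rw [h3, ha] at h
      rcases Nat.lt_or_ge j b with h2 | h2
      · rcases Nat.eq_zero_or_pos j with hj0 | hj0
        · rw [hj0, Nat.cast_zero, zero_mul, neg_zero, or_self] at h
          exact H.hm h
        · rcases h with h | h
          · exact (fb j (by omega) (by rw [abs_lt]; omega)).1 (by push_cast; exact h.symm)
          · exact (fb (-j) (by omega) (by rw [abs_lt]; omega)).1 (by push_cast; linear_combination -h)
      · have h4 : j = b := by omega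
        rw [h4, hb, neg_neg] at h
        rcases h with h | h
        · exact H.m_ne_neg h
        · exact H.m_ne_n h
  rw [abs_le] at hi hj
  obtain ⟨i, rfl | rfl⟩ := Int.eq_nat_or_neg i <;> obtain ⟨j, rfl | rfl⟩ := Int.eq_nat_or_neg j <;>
    push_cast at hij
  · have := key i j (by omega) (by omega) (Or.inl hij)
    omega
  · have := key i j (by omega) (by omega) (Or.inr (by linear_combination hij))
    omega
  · have := key i j (by omega) (by omega) (Or.inr (by linear_combination -hij))
    omega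
  · have := key i j (by omega) (by omega) (Or.inl (by linear_combination -hij))
    omega

/-- the box lemma -/
theorem box (H : Flat3 d1 d2 d3 N1 N2 N3 K z m n τ) {a b : ℕ} (hap : a < p) (hbp : b < p)
    (ha : (a : ZMod p) * d1 = m ∨ (a : ZMod p) * d1 = -m) (hb : (b : ZMod p) * d3 = n ∨ (b : ZMod p) * d3 = -n)
    (fa : Free d1 m n a) (fb : Free d3 m n b)
    {i j : ℤ} (hi : |i| ≤ a) (hj : |j| ≤ b) (hij : (i : ZMod p) * d1 = (j : ZMod p) * d3) : i = 0 ∧ j = 0 := by
  rcases ha with ha | ha <;> rcases hb with hb | hb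
  · exact H.flipn.box_aux hap hbp ha (by rw [neg_neg]; exact hb) fa.flipn fb.flipn hi hj hij
  · exact H.box_aux hap hbp ha hb fa fb hi hj hij
  · exact H.flipm.flipn.box_aux hap hbp ha (by rw [neg_neg]; exact hb) fa.flipm.flipn fb.flipm.flipn hi hj hij
  · exact H.flipm.box_aux hap hbp ha hb fa.flipm fb.flipm hi hj hij

end Flat3

end Pool.Agent.H89.TL
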