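import Pool.Agent.H89.TL.Box

/-!
MP_fd220b_nt, the triangle lemma: two directions with the same letter, geometry.
-/

set_option autoImplicit false

namespace Pool.Agent.H89.TL

open Finset

variable {p : ℕ}

/-- sum over a stack -/
def stk (f : ZMod p → ℤ) (d : ZMod p) (b : ℕ) (x : ZMod p) : ℤ := ∑ j ∈ range b, f (x + (j : ZMod p) * d)

theorem stk_diff (f : ZMod p → ℤ) (d : ZMod p) (b : ℕ) (x : ZMod p) :
    stk f d b (x + d) - stk f d b x = f (x + (b : ZMod p) * d) - f x := by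
  unfold stk
  rw [← Finset.sum_sub_distrib]
  have h := Finset.sum_range_sub (fun j : ℕ => f (x + (j : ZMod p) * d)) b
  simp only [Nat.cast_zero, zero_mul, add_zero] at h
  rw [← h]
  refine Finset.sum_congr rfl fun j _ => ?_
  have e : x + d + (j : ZMod p) * d = x + ((j + 1 : ℕ) : ZMod p) * d := by
    push_cast
    ring
  rw [e]

theorem stk_nonneg {f : ZMod p → ℤ} (hf : ∀ x, 0 ≤ f x) (d : ZMod p) (b : ℕ) (x : ZMod p) : 0 ≤ stk f d b x :=
  Finset.sum_nonneg fun _ _ => hf _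

theorem stk_mem {e x0 d x : ZMod p} {u b i j : ℕ} (hi : i < u) (hj : j < b)
    (h : x + (j : ZMod p) * d = x0 + (i : ZMod p) * e) : 1 ≤ stk (seg e x0 u) d b x := by
  unfold stk
  have h1 := seg_mem hi h
  exact le_trans h1 (Finset.single_le_sum (f := fun j : ℕ => seg e x0 u (x + (j : ZMod p) * d))
    (fun _ _ => seg_nonneg _ _ _ _) (mem_range.2 hj))

theorem mem_of_stk {e x0 d x : ZMod p} {u b : ℕ} (h : stk (seg e x0 u) d b x ≠ 0) :
    ∃ i j : ℕ, i < u ∧ j < b ∧ x + (j : ZMod p) * d = x0 + (i : ZMod p) * e := by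
  obtain ⟨j, hj, hj2⟩ := Finset.exists_ne_zero_of_sum_ne_zero h
  obtain ⟨i, hi, hi2⟩ := mem_of_seg hj2
  exact ⟨i, j, hi, mem_range.1 hj, hi2⟩

/-- letters `m, ± m, - n` -/
structure CA (d1 d2 d3 : ZMod p) (N1 N2 N3 : ZMod p → ℤ) (K : ℤ) (z m n : ZMod p) (τ : ℤ) (a b c : ℕ) : Prop where
  H : Flat3 d1 d2 d3 N1 N2 N3 K z m n τ
  a0 : 0 < a
  b0 : 0 < b
  c0 : 0 < c
  ap : a < p
  bp : b < p
  cp : c < p
  ha : (a : ZMod p) * d1 = m
  hb : (b : ZMod p) * d3 = -n
  hc : (c : ZMod p) * d2 = m ∨ (c : ZMod p) * d2 = -m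
  fa : Free d1 m n a
  fb : Free d3 m n b
  fc : Free d2 m n c

namespace CA

variable [NeZero p] {d1 d2 d3 : ZMod p} {N1 N2 N3 : ZMod p → ℤ} {K : ℤ} {z m n : ZMod p} {τ : ℤ} {a b c : ℕ}

theorem box13 (C : CA d1 d2 d3 N1 N2 N3 K z m n τ a b c) {i j : ℤ} (hi : |i| ≤ a) (hj : |j| ≤ b)
    (hij : (i : ZMod p) * d1 = (j : ZMod p) * d3) : i = 0 ∧ j = 0 :=
  C.H.box C.ap C.bp (Or.inl C.ha) (Or.inr C.hb) C.fa C.fb hi hj hij

theorem box32 (C : CA d1 d2 d3 N1 N2 N3 K z m n τ a b c) {i j : ℤ} (hi : |i| ≤ b) (hj : |j| ≤ c)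
    (hij : (i : ZMod p) * d3 = (j : ZMod p) * d2) : i = 0 ∧ j = 0 :=
  C.H.rot.rot.swap.box C.bp C.cp (Or.inr C.hb) C.hc C.fb.swap C.fc.swap hi hj hij

/-- the function `N2` -/
theorem n2 (C : CA d1 d2 d3 N1 N2 N3 K z m n τ a b c) :
    ∃ k : ℤ, ∀ x, N2 x = k - τ * stk (seg d1 z a) d3 b x := by
  refine ⟨N2 0 + τ * stk (seg d1 z a) d3 b 0, fun x => ?_⟩
  have h := const_of C.H.h3 (f := fun x => N2 x + τ * stk (seg d1 z a) d3 b x) (fun x => ?_) x 0
  · have h2 : N2 x + τ * stk (seg d1 z a) d3 b x = N2 0 + τ * stk (seg d1 z a) d3 b 0 := h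
    linarith
  · have h1 := C.H.f1 C.ha x
    have h2 := stk_diff (seg d1 z a) d3 b x
    rw [C.hb, ← sub_eq_add_neg, seg_sub] at h2
    show N2 (x + d3) + τ * stk (seg d1 z a) d3 b (x + d3) = N2 x + τ * stk (seg d1 z a) d3 b x
    linear_combination h1 + τ * h2

/-- the function `N1`, equal signs -/
theorem n1 (C : CA d1 d2 d3 N1 N2 N3 K z m n τ a b c) (hc : (c : ZMod p) * d2 = m) :
    ∃ k : ℤ, ∀ x, N1 x = k - τ * stk (seg d2 (z + d2) c) d3 b x := by
  refine ⟨N1 0 + τ * stk (seg d2 (z + d2) c) d3 b 0, fun x => ?_⟩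
  have h := const_of C.H.h3 (f := fun x => N1 x + τ * stk (seg d2 (z + d2) c) d3 b x) (fun x => ?_) x 0
  · have h2 : N1 x + τ * stk (seg d2 (z + d2) c) d3 b x = N1 0 + τ * stk (seg d2 (z + d2) c) d3 b 0 := h
    linarith
  · have h1 := C.H.rot.f1 hc (x + d3)
    rw [C.H.e2, add_sub_cancel_right, seg_plus, seg_plus] at h1
    have h2 := stk_diff (seg d2 (z + d2) c) d3 b x
    rw [C.hb, ← sub_eq_add_neg, seg_sub] at h2
    have e1 : z - d1 - d3 = z + d2 := by linear_combination -C.H.sum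
    have e2 : z - d1 + n - d3 = z + d2 + n := by linear_combination -C.H.sum
    rw [e1, e2] at h1
    show N1 (x + d3) + τ * stk (seg d2 (z + d2) c) d3 b (x + d3) = N1 x + τ * stk (seg d2 (z + d2) c) d3 b x
    linear_combination h1 + τ * h2

/-- the function `N1`, opposite signs -/
theorem n1' (C : CA d1 d2 d3 N1 N2 N3 K z m n τ a b c) (hc : (c : ZMod p) * d2 = -m) :
    ∃ k : ℤ, ∀ x, N1 x = k + τ * stk (seg d2 (z + m + d2) c) d3 b x := by
  refine ⟨N1 0 - τ * stk (seg d2 (z + m + d2) c) d3 b 0, fun x => ?_⟩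
  have h := const_of C.H.h3 (f := fun x => N1 x - τ * stk (seg d2 (z + m + d2) c) d3 b x) (fun x => ?_) x 0
  · have h2 : N1 x - τ * stk (seg d2 (z + m + d2) c) d3 b x = N1 0 - τ * stk (seg d2 (z + m + d2) c) d3 b 0 := h
    linarith
  · have h1 := C.H.flipm.rot.f1 hc (x + d3)
    rw [C.H.e2, add_sub_cancel_right, seg_plus, seg_plus] at h1
    have h2 := stk_diff (seg d2 (z + m + d2) c) d3 b x
    rw [C.hb, ← sub_eq_add_neg, seg_sub] at h2
    have e1 : z + m - d1 - d3 = z + m + d2 := by linear_combination -C.H.sum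
    have e2 : z + m - d1 + n - d3 = z + m + d2 + n := by linear_combination -C.H.sum
    rw [e1, e2] at h1
    show N1 (x + d3) - τ * stk (seg d2 (z + m + d2) c) d3 b (x + d3) = N1 x - τ * stk (seg d2 (z + m + d2) c) d3 b x
    linear_combination h1 - τ * h2

omit [NeZero p] in
theorem tau_ne (H : Flat3 d1 d2 d3 N1 N2 N3 K z m n τ) : τ ≠ 0 := by
  rcases H.ht with h | h <;> rw [h] <;> norm_num

/-- opposite signs are impossible -/
theorem minus (C : CA d1 d2 d3 N1 N2 N3 K z m n τ a b c) (hc : (c : ZMod p) * d2 = -m) : False := by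
  obtain ⟨k1, hk1⟩ := C.n1' hc
  obtain ⟨k2, hk2⟩ := C.n2
  have a0 := C.a0
  have b0 := C.b0
  have c0 := C.c0
  have ha := C.ha
  have hb := C.hb
  have hsum := C.H.sum
  have hN : ∀ x y, |(stk (seg d1 z a) d3 b x - stk (seg d2 (z + m + d2) c) d3 b x) -
      (stk (seg d1 z a) d3 b y - stk (seg d2 (z + m + d2) c) d3 b y)| ≤ 1 := by
    intro x y
    have h1 := C.H.bnd3 x y
    have h2 := C.H.diag x
    have h3 := C.H.diag y
    have h4 : N3 x - N3 y = τ * ((stk (seg d1 z a) d3 b x - stk (seg d2 (z + m + d2) c) d3 b x) -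
      (stk (seg d1 z a) d3 b y - stk (seg d2 (z + m + d2) c) d3 b y)) := by
      rw [hk1 x, hk2 x] at h2
      rw [hk1 y, hk2 y] at h3
      linear_combination h2 - h3
    rw [h4, abs_mul, C.H.abs_tau, one_mul] at h1
    exact h1
  -- `c ≥ 2`
  have hc2 : 2 ≤ c := by
    by_contra h
    have h1 : c = 1 := by omega
    rw [h1, Nat.cast_one, one_mul] at hc
    have h2 := C.box13 (i := (a : ℤ) - 1) (j := 1) (by rw [abs_le]; omega) (by rw [abs_le]; omega) (by
      push_cast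
      linear_combination ha + hc - hsum)
    omega
  -- `min c b < a`
  obtain ⟨μ, hμc, hμb, hμ⟩ : ∃ μ : ℕ, μ ≤ c ∧ μ ≤ b ∧ (μ = c ∨ μ = b) := ⟨min c b, by omega, by omega, by omega⟩
  have hmin : μ < a := by
    by_contra h
    push Not at h
    have h1 := C.box32 (i := (a : ℤ)) (j := (c : ℤ) - a) (by rw [abs_le]; omega) (by rw [abs_le]; omega) (by
      push_cast
      linear_combination (a : ZMod p) * hsum - ha - hc)
    omega
  -- the point in the first set only
  have y1 : 1 ≤ stk (seg d2 (z + m + d2) c) d3 b (z - d2) :=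
    stk_mem (i := c - 2) (j := 0) (by omega) (by omega) (by
      rw [Nat.cast_sub hc2]
      push_cast
      linear_combination -hc)
  have y2 : stk (seg d1 z a) d3 b (z - d2) = 0 := by
    by_contra h
    obtain ⟨i, j, hi, hj, hij⟩ := mem_of_stk h
    have h1 := C.box13 (i := (i : ℤ) - 1) (j := (j : ℤ) + 1) (by rw [abs_le]; omega) (by rw [abs_le]; omega) (by
      push_cast
      linear_combination -hij - hsum)
    omega
  have x1 : 1 ≤ stk (seg d1 z a) d3 b (z + (μ : ZMod p) * d1) :=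
    stk_mem (i := μ) (j := 0) hmin (by omega) (by simp)
  have x2 : stk (seg d2 (z + m + d2) c) d3 b (z + (μ : ZMod p) * d1) = 0 := by
    by_contra h
    obtain ⟨i, j, hi, hj, hij⟩ := mem_of_stk h
    have h1 := C.box32 (i := (μ : ℤ) - j) (j := (c : ℤ) - 1 - i - μ)
      (by rw [abs_le]; omega) (by rw [abs_le]; omega) (by
      push_cast
      linear_combination (μ : ZMod p) * hsum - hij - hc)
    omega
  have h := hN (z + (μ : ZMod p) * d1) (z - d2)
  rw [x2, y2, abs_le] at h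
  omega

/-- the sum of the two stacks -/
def W (d1 d2 d3 z : ZMod p) (a b c : ℕ) (x : ZMod p) : ℤ :=
  stk (seg d2 (z + d2) c) d3 b x + stk (seg d1 z a) d3 b x

theorem W_nonneg (x : ZMod p) : 0 ≤ W d1 d2 d3 z a b c x :=
  add_nonneg (stk_nonneg (seg_nonneg _ _ _) _ _ _) (stk_nonneg (seg_nonneg _ _ _) _ _ _)

theorem n3 (C : CA d1 d2 d3 N1 N2 N3 K z m n τ a b c) (hc : (c : ZMod p) * d2 = m) (x y : ZMod p) :
    N3 x - N3 y = τ * (W d1 d2 d3 z a b c x - W d1 d2 d3 z a b c y) := by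
  obtain ⟨k1, hk1⟩ := C.n1 hc
  obtain ⟨k2, hk2⟩ := C.n2
  have h2 := C.H.diag x
  have h3 := C.H.diag y
  rw [hk1 x, hk2 x] at h2
  rw [hk1 y, hk2 y] at h3
  unfold W
  linear_combination h2 - h3

theorem W_zero (C : CA d1 d2 d3 N1 N2 N3 K z m n τ a b c) (hc : (c : ZMod p) * d2 = m) :
    W d1 d2 d3 z a b c (z + m + n) = 0 := by
  have ha := C.ha
  have hb := C.hb
  have h1 : stk (seg d2 (z + d2) c) d3 b (z + m + n) = 0 := by
    by_contra h
    obtain ⟨i, j, hi, hj, hij⟩ := mem_of_stk h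
    have h1 := C.box32 (i := (b : ℤ) - j) (j := (c : ℤ) - 1 - i) (by rw [abs_le]; omega) (by rw [abs_le]; omega) (by
      push_cast
      linear_combination hb - hij - hc)
    omega
  have h2 : stk (seg d1 z a) d3 b (z + m + n) = 0 := by
    by_contra h
    obtain ⟨i, j, hi, hj, hij⟩ := mem_of_stk h
    have h1 := C.box13 (i := (a : ℤ) - i) (j := (b : ℤ) - j) (by rw [abs_le]; omega) (by rw [abs_le]; omega) (by
      push_cast
      linear_combination hij + ha - hb)
    omega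
  unfold W
  rw [h1, h2, add_zero]

theorem W_le (C : CA d1 d2 d3 N1 N2 N3 K z m n τ a b c) (hc : (c : ZMod p) * d2 = m) (x : ZMod p) :
    W d1 d2 d3 z a b c x ≤ 1 := by
  have h1 := C.H.bnd3 x (z + m + n)
  rw [C.n3 hc, C.W_zero hc, sub_zero, abs_mul, C.H.abs_tau, one_mul] at h1
  exact le_trans (le_abs_self _) h1

/-- the plane condition -/
theorem W_plane (C : CA d1 d2 d3 N1 N2 N3 K z m n τ a b c) (hc : (c : ZMod p) * d2 = m) {x1 x2 x3 : ZMod p}
    (h1 : 1 ≤ stk (seg d2 (z + d2) c) d3 b x1) (h2 : 1 ≤ stk (seg d1 z a) d3 b x2)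
    (hx : d1 * x1 + d2 * x2 + d3 * x3 = 0) : W d1 d2 d3 z a b c x3 = 1 := by
  obtain ⟨k1, hk1⟩ := C.n1 hc
  obtain ⟨k2, hk2⟩ := C.n2
  have h3 := C.H.plane x1 x2 x3 hx
  have h4 := C.H.diag x3
  rw [hk1 x3, hk2 x3] at h4
  have h5 : N1 x1 + N2 x2 + N3 x3 - K = τ * (W d1 d2 d3 z a b c x3 - stk (seg d2 (z + d2) c) d3 b x1 -
      stk (seg d1 z a) d3 b x2) := by
    rw [hk1 x1, hk2 x2]
    unfold W
    linear_combination h4
  rw [h5, abs_mul, C.H.abs_tau, one_mul, abs_le] at h3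
  have h6 := C.W_le hc x3
  omega

/-- the cross direction -/
theorem W_psi (C : CA d1 d2 d3 N1 N2 N3 K z m n τ a b c) (hc : (c : ZMod p) * d2 = m) {ψ : ZMod p}
    (hψ : ψ * d3 = -(d1 * d2)) {i i' j j' : ℕ} (hi : i < a) (hi' : i' < c) (hj : j < b) (hj' : j' < b) {y : ZMod p}
    (hy : y = z + ψ * ((i : ZMod p) + i' + 1) + (j : ZMod p) * d1 + (j' : ZMod p) * d2) :
    W d1 d2 d3 z a b c y = 1 := by
  refine C.W_plane hc (x1 := z + d2 + (i' : ZMod p) * d2 - (j : ZMod p) * d3)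
    (x2 := z + (i : ZMod p) * d1 - (j' : ZMod p) * d3) ?_ ?_ ?_
  · exact stk_mem hi' hj (by ring)
  · exact stk_mem hi hj' (by ring)
  · rw [hy]
    linear_combination z * C.H.sum + ((i : ZMod p) + i' + 1) * hψ

/-- the heights vanish -/
theorem height (C : CA d1 d2 d3 N1 N2 N3 K z m n τ a b c) (hc : (c : ZMod p) * d2 = m) {ψ : ZMod p}
    (hψ : ψ * d3 = -(d1 * d2)) {i i' : ℕ} (hi : i < a) (hi' : i' < c) :
    (∃ k : ℕ, k < a ∧ z + ψ * ((i : ZMod p) + i' + 1) = z + (k : ZMod p) * d1) ∨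
      (∃ k : ℕ, k < c ∧ z + ψ * ((i : ZMod p) + i' + 1) = z + d2 + (k : ZMod p) * d2) := by
  set y := z + ψ * ((i : ZMod p) + i' + 1) with hy
  have b0 := C.b0
  have hb := C.hb
  have hsum := C.H.sum
  have h1 : W d1 d2 d3 z a b c y = 1 := C.W_psi hc hψ hi hi' b0 b0 (by rw [hy]; push_cast; ring)
  have hW := C.W_le hc
  by_cases h2 : stk (seg d1 z a) d3 b y = 0
  · right
    have h3 : stk (seg d2 (z + d2) c) d3 b y ≠ 0 := by
      intro h3
      unfold W at h1
      rw [h2, h3] at h1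
      norm_num at h1
    obtain ⟨k, h, hk, hh, hkh⟩ := mem_of_stk h3
    rcases Nat.eq_zero_or_pos h with h0 | h0
    · refine ⟨k, hk, ?_⟩
      rw [h0, Nat.cast_zero, zero_mul, add_zero] at hkh
      exact hkh
    · exfalso
      set x := z - d1 + n + (k : ZMod p) * d2 with hx
      have h4 : W d1 d2 d3 z a b c (x + d1) = 1 := by
        refine C.W_psi hc hψ hi hi' (j := b - h) (j' := b - 1 - h) (by omega) (by omega) ?_
        rw [← hy, hx, Nat.cast_sub (by omega), Nat.cast_sub (by omega), Nat.cast_sub (by omega)]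
        push_cast
        linear_combination -hkh - ((b : ZMod p) - h) * hsum + hb
      have h5 := C.H.rot.f1 hc x
      rw [C.n3 hc] at h5
      have h6 := mul_left_cancel₀ (tau_ne C.H) h5
      have h7 : seg d2 (z - d1) c x = 0 := seg_zero fun l hl hlx => C.H.disj C.fc hl hk hlx hx
      have h8 := seg_mem hk hx
      have h9 := hW x
      rw [h7, h4] at h6
      omega
  · left
    obtain ⟨k, h, hk, hh, hkh⟩ := mem_of_stk h2
    rcases Nat.eq_zero_or_pos h with h0 | h0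
    · refine ⟨k, hk, ?_⟩
      rw [h0, Nat.cast_zero, zero_mul, add_zero] at hkh
      exact hkh
    · exfalso
      set x := z + n + (k : ZMod p) * d1 with hx
      have h4 : W d1 d2 d3 z a b c x = 1 := by
        refine C.W_psi hc hψ hi hi' (j := b - h) (j' := b - h) (by omega) (by omega) ?_
        rw [← hy, hx, Nat.cast_sub (by omega)]
        linear_combination -hkh - ((b : ZMod p) - h) * hsum + hb
      have h5 := C.H.f1 C.ha x
      rw [C.H.e1, C.n3 hc] at h5
      have h6 := mul_left_cancel₀ (tau_ne C.H) h5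
      have h7 : seg d1 z a x = 0 := seg_zero fun l hl hlx => C.H.disj C.fa hl hk hlx hx
      have h8 := seg_mem hk hx
      have h9 := hW (x - d2)
      rw [h7, h4] at h6
      omega

end CA

end Pool.Agent.H89.TL
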