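import Pool.Agent.H89.TL.CaseA

/-!
MP_fd220b_nt, the triangle lemma: two directions with the same letter, counting.
-/

set_option autoImplicit false

namespace Pool.Agent.H89.TL

open Finset

section sums

variable {R : Type*} [CommRing R]

theorem ps1 (n : ℕ) : 2 * ∑ i ∈ range n, (i : R) = (n : R) * (n - 1) := by
  induction n with
  | zero => simp
  | succ n ih =>
    rw [Finset.sum_range_succ, mul_add, ih]
    push_cast
    ring

theorem qs1 (n : ℕ) : 2 * ∑ i ∈ range n, ((i : R) + 1) = (n : R) * (n + 1) := by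
  induction n with
  | zero => simp
  | succ n ih =>
    rw [Finset.sum_range_succ, mul_add, ih]
    push_cast
    ring

end sums

variable {p : ℕ} [NeZero p]

theorem cast_inj {i j : ℕ} (hi : i < p) (hj : j < p) (h : (i : ZMod p) = (j : ZMod p)) : i = j := by
  have := congrArg ZMod.val h
  rwa [ZMod.val_natCast_of_lt hi, ZMod.val_natCast_of_lt hj] at this

theorem injOn_aux {d : ZMod p} (hd : IsUnit d) {k : ℕ} (hk : k ≤ p) (y : ZMod p) {g : ℕ → ZMod p}
    (hg : ∀ i j : ℕ, g i = g j → ((i : ZMod p) - j) * d = 0) : Set.InjOn g (range k : Set ℕ) := by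
  intro i hi j hj h
  rw [coe_range, Set.mem_Iio] at hi hj
  have h4 := (hd.mul_left_eq_zero).1 (hg i j h)
  exact cast_inj (by omega) (by omega) (sub_eq_zero.1 h4)

variable {d1 d2 d3 : ZMod p} {N1 N2 N3 : ZMod p → ℤ} {K : ℤ} {z m n : ZMod p} {τ : ℤ} {a b c : ℕ}

/-- equal signs are impossible -/
theorem CA.plus (C : CA d1 d2 d3 N1 N2 N3 K z m n τ a b c) (hc : (c : ZMod p) * d2 = m) : False := by
  classical
  have a0 := C.a0
  have b0 := C.b0
  have c0 := C.c0
  have ap := C.ap
  have cp := C.cp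
  have ha := C.ha
  have hsum := C.H.sum
  have hm := C.H.hm
  obtain ⟨i3, hi3⟩ := C.H.h3.exists_left_inv
  obtain ⟨ψ, hψdef⟩ : ∃ ψ : ZMod p, ψ = -(d1 * d2) * i3 := ⟨_, rfl⟩
  have hψ : ψ * d3 = -(d1 * d2) := by
    rw [hψdef]
    linear_combination (-(d1 * d2)) * hi3
  have hψu : IsUnit ψ := by
    rw [hψdef]
    exact (C.H.h1.mul C.H.h2).neg.mul (IsUnit.of_mul_eq_one _ hi3)
  have hr : d1 * d2 = ψ * (d1 + d2) := by linear_combination hψ - ψ * hsum
  have hψm : ψ * ((a : ZMod p) + c) = m := by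
    have h : (d1 * d2) * (ψ * ((a : ZMod p) + c) - m) = 0 := by
      linear_combination ψ * d2 * ha + ψ * d1 * hc - m * hr
    exact sub_eq_zero.1 (((C.H.h1.mul C.H.h2).mul_right_eq_zero).1 h)
  set S1 : Finset (ZMod p) := (range a).image (fun i : ℕ => z + (i : ZMod p) * d1) with hS1
  set S2 : Finset (ZMod p) := (range c).image (fun i : ℕ => z + d2 + (i : ZMod p) * d2) with hS2
  set T : Finset (ZMod p) := (range (a + c - 1)).image (fun i : ℕ => z + ψ * ((i : ZMod p) + 1)) with hT
  have inj1 : Set.InjOn (fun i : ℕ => z + (i : ZMod p) * d1) (range a : Set ℕ) :=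
    injOn_aux C.H.h1 ap.le z fun i j h => by
      have : z + (i : ZMod p) * d1 = z + (j : ZMod p) * d1 := h
      linear_combination this
  have inj2 : Set.InjOn (fun i : ℕ => z + d2 + (i : ZMod p) * d2) (range c : Set ℕ) :=
    injOn_aux C.H.h2 cp.le z fun i j h => by
      have : z + d2 + (i : ZMod p) * d2 = z + d2 + (j : ZMod p) * d2 := h
      linear_combination this
  have hdisj : Disjoint S1 S2 := by
    rw [Finset.disjoint_left]
    intro x hx1 hx2
    rw [hS1, mem_image] at hx1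
    rw [hS2, mem_image] at hx2
    obtain ⟨i, hi, hi2⟩ := hx1
    obtain ⟨j, hj, hj2⟩ := hx2
    have h4 : 1 ≤ stk (seg d1 z a) d3 b x := stk_mem (j := 0) (mem_range.1 hi) b0 (by rw [← hi2]; simp)
    have h5 : 1 ≤ stk (seg d2 (z + d2) c) d3 b x := stk_mem (j := 0) (mem_range.1 hj) b0 (by rw [← hj2]; simp)
    have h6 := C.W_le hc x
    unfold CA.W at h6
    omega
  have hcard : (S1 ∪ S2).card = a + c := by
    rw [Finset.card_union_of_disjoint hdisj, hS1, hS2, Finset.card_image_of_injOn inj1,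
      Finset.card_image_of_injOn inj2, card_range, card_range]
  have hle : a + c ≤ p := by
    rw [← hcard]
    have := Finset.card_le_univ (S1 ∪ S2)
    rwa [ZMod.card] at this
  have hlt : a + c < p := by
    rcases Nat.lt_or_ge (a + c) p with h | h
    · exact h
    · exfalso
      have h4 : a + c = p := by omega
      have h5 : (a : ZMod p) + c = 0 := by
        rw [← Nat.cast_add, h4, ZMod.natCast_self]
      rw [h5, mul_zero] at hψm
      exact hm hψm.symm
  have injT : Set.InjOn (fun i : ℕ => z + ψ * ((i : ZMod p) + 1)) (range (a + c - 1) : Set ℕ) :=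
    injOn_aux hψu (by omega) z fun i j h => by
      have : z + ψ * ((i : ZMod p) + 1) = z + ψ * ((j : ZMod p) + 1) := h
      linear_combination this
  have hTcard : T.card = a + c - 1 := by
    rw [hT, Finset.card_image_of_injOn injT, card_range]
  have hTS : T ⊆ S1 ∪ S2 := by
    intro x hx
    rw [hT, mem_image] at hx
    obtain ⟨I, hI, rfl⟩ := hx
    rw [mem_range] at hI
    have h4 : ∃ i i' : ℕ, i < a ∧ i' < c ∧ I = i + i' := by
      rcases Nat.lt_or_ge I c with h | h
      · exact ⟨0, I, a0, h, by omega⟩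
      · exact ⟨I - (c - 1), c - 1, by omega, by omega, by omega⟩
    obtain ⟨i, i', hi, hi', hII⟩ := h4
    have h5 := C.height hc hψ hi hi'
    rw [hII]
    rw [mem_union, hS1, hS2, mem_image, mem_image]
    push_cast
    rcases h5 with ⟨k, hk, hk2⟩ | ⟨k, hk, hk2⟩
    · exact Or.inl ⟨k, mem_range.2 hk, hk2.symm⟩
    · exact Or.inr ⟨k, mem_range.2 hk, hk2.symm⟩
  have hone : ((S1 ∪ S2) \ T).card = 1 := by
    rw [Finset.card_sdiff_of_subset hTS, hcard, hTcard]
    omega
  obtain ⟨x0, hx0⟩ := Finset.card_eq_one.1 hone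
  -- the missing element is `z`
  have hx0z : x0 = z := by
    have h4 : z ∈ (S1 ∪ S2) \ T := by
      rw [mem_sdiff, mem_union]
      refine ⟨Or.inl ?_, ?_⟩
      · rw [hS1, mem_image]
        exact ⟨0, mem_range.2 a0, by simp⟩
      · rw [hT, mem_image]
        rintro ⟨i, hi, hi2⟩
        rw [mem_range] at hi
        refine nat_mul_ne hψu (i := i + 1) (by omega) (by omega) ?_
        push_cast
        linear_combination hi2
    rw [hx0, mem_singleton] at h4
    exact h4.symm
  have key : ∑ i ∈ range a, (z + (i : ZMod p) * d1 - z) + ∑ i ∈ range c, (z + d2 + (i : ZMod p) * d2 - z) =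
      ∑ i ∈ range (a + c - 1), (z + ψ * ((i : ZMod p) + 1) - z) := by
    have h4 := Finset.sum_sdiff (f := fun x => x - z) hTS
    rw [hx0, Finset.sum_singleton, Finset.sum_union hdisj, hS1, hS2, hT, Finset.sum_image inj1,
      Finset.sum_image inj2, Finset.sum_image injT, hx0z, sub_self, zero_add] at h4
    exact h4.symm
  have hcast : ((a + c - 1 : ℕ) : ZMod p) = (a : ZMod p) + c - 1 := by
    rw [Nat.cast_sub (by omega)]
    push_cast
    ring
  have t1 : ∑ i ∈ range a, (z + (i : ZMod p) * d1 - z) = d1 * ∑ i ∈ range a, (i : ZMod p) := by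
    rw [Finset.mul_sum]
    refine Finset.sum_congr rfl fun i _ => ?_
    ring
  have t2 : ∑ i ∈ range c, (z + d2 + (i : ZMod p) * d2 - z) = d2 * ∑ i ∈ range c, ((i : ZMod p) + 1) := by
    rw [Finset.mul_sum]
    refine Finset.sum_congr rfl fun i _ => ?_
    ring
  have t3 : ∑ i ∈ range (a + c - 1), (z + ψ * ((i : ZMod p) + 1) - z) =
      ψ * ∑ i ∈ range (a + c - 1), ((i : ZMod p) + 1) := by
    rw [Finset.mul_sum]
    refine Finset.sum_congr rfl fun i _ => ?_
    ring
  rw [t1, t2, t3] at key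
  have q1 := ps1 (R := ZMod p) a
  have r1 := qs1 (R := ZMod p) c
  have u1 := qs1 (R := ZMod p) (a + c - 1)
  rw [hcast] at u1
  have e1 : d1 * ((a : ZMod p) * (a - 1)) + d2 * ((c : ZMod p) * (c + 1)) =
      ψ * (((a : ZMod p) + c - 1) * ((a : ZMod p) + c)) := by
    linear_combination 2 * key - d1 * q1 - d2 * r1 + ψ * u1
  apply hm
  linear_combination e1 - ((a : ZMod p) - 1) * ha - ((c : ZMod p) + 1) * hc + ((a : ZMod p) + c - 1) * hψm

omit [NeZero p] in
/-- the letters `m, m, n` are impossible -/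
theorem no_mmn [NeZero p] (H : Flat3 d1 d2 d3 N1 N2 N3 K z m n τ) {a b c : ℕ}
    (a0 : 0 < a) (b0 : 0 < b) (c0 : 0 < c) (ap : a < p) (bp : b < p) (cp : c < p)
    (fa : Free d1 m n a) (fb : Free d3 m n b) (fc : Free d2 m n c)
    (ha : (a : ZMod p) * d1 = m ∨ (a : ZMod p) * d1 = -m) (hb : (b : ZMod p) * d3 = n ∨ (b : ZMod p) * d3 = -n)
    (hc : (c : ZMod p) * d2 = m ∨ (c : ZMod p) * d2 = -m) : False := by
  have main : ∀ (z m n : ZMod p) (τ : ℤ), Flat3 d1 d2 d3 N1 N2 N3 K z m n τ →
      Free d1 m n a → Free d3 m n b → Free d2 m n c → (a : ZMod p) * d1 = m → (b : ZMod p) * d3 = -n →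
      ((c : ZMod p) * d2 = m ∨ (c : ZMod p) * d2 = -m) → False := by
    intro z m n τ H fa fb fc ha hb hc
    have C : CA d1 d2 d3 N1 N2 N3 K z m n τ a b c := ⟨H, a0, b0, c0, ap, bp, cp, ha, hb, hc, fa, fb, fc⟩
    rcases hc with h | h
    · exact C.plus h
    · exact C.minus h
  have main2 : ∀ (z m n : ZMod p) (τ : ℤ), Flat3 d1 d2 d3 N1 N2 N3 K z m n τ →
      Free d1 m n a → Free d3 m n b → Free d2 m n c → (a : ZMod p) * d1 = m →
      ((b : ZMod p) * d3 = n ∨ (b : ZMod p) * d3 = -n) →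
      ((c : ZMod p) * d2 = m ∨ (c : ZMod p) * d2 = -m) → False := by
    intro z m n τ H fa fb fc ha hb hc
    rcases hb with h | h
    · exact main _ _ _ _ H.flipn fa.flipn fb.flipn fc.flipn ha (by rw [neg_neg]; exact h) hc
    · exact main _ _ _ _ H fa fb fc ha h hc
  rcases ha with h | h
  · exact main2 _ _ _ _ H fa fb fc h hb hc
  · exact main2 _ _ _ _ H.flipm fa.flipm fb.flipm fc.flipm h hb (by rw [neg_neg]; exact hc.symm)

end Pool.Agent.H89.TL
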