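import Pool.Agent.H89.TL.CaseA2

/-!
MP_fd220b_nt, the triangle lemma: all three directions have the same letter; the triangle lemma.
-/

set_option autoImplicit false

namespace Pool.Agent.H89.TL

open Finset

variable {p : ℕ} [NeZero p] {d1 d2 d3 : ZMod p} {N1 N2 N3 : ZMod p → ℤ} {K : ℤ} {z m n : ZMod p} {τ : ℤ}

/-- two ways from `z + n - d1` to `z + n - d1 + m` -/
theorem walk (H : Flat3 d1 d2 d3 N1 N2 N3 K z m n τ) {a c : ℕ} (a0 : 0 < a) (c0 : 0 < c) (ap : a < p) (cp : c < p)
    (ha : (a : ZMod p) * d1 = m) (hc : (c : ZMod p) * d2 = m) (fa : Free d1 m n a) (fc : Free d2 m n c)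
    {s : ZMod p → ℤ} {u : ℤ} (hs : ∀ x, s (x + d3) - s x = dl z x - dl (z + m) x) (hu : ∑ x : ZMod p, s x = u)
    (m1 : ∀ x, s x ≠ 0 → N1 (x + d2) - N1 x ≠ 0) (m2 : s (z + n) = 0) (m3 : s (z + d3 + m + n) = 0) :
    -((a : ℤ) * u) = c * (u + a) := by
  have hsum := H.sum
  -- the height function
  obtain ⟨G, hG⟩ := exists_pot H.h3 (f := fun x => p * seg d1 z a x - a) (by
    rw [Finset.sum_sub_distrib, ← Finset.mul_sum, sum_seg, Finset.sum_const, card_univ, ZMod.card, nsmul_eq_mul,
      sub_self])
  have hD : ∀ x, G x - G (x - d1) = p * s x - u := by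
    intro x
    refine eq_of_diff H.h3 (f := fun x => G x - G (x - d1)) (g := fun x => p * s x - u) (fun y => ?_) ?_ x
    · have h1 := hG (y - d3)
      have h2 := hG (y - d3 - d1)
      have h3 := hs (y - d3)
      have h4 := seg_diff d1 z a (y - d3)
      rw [ha] at h4
      rw [sub_add_cancel] at h1 h3
      have e1 : y - d3 - d1 + d3 = y - d1 := by ring
      rw [e1] at h2
      show G y - G (y - d1) - (G (y - d3) - G (y - d3 - d1)) = p * s y - u - (p * s (y - d3) - u)
      linear_combination h1 - h2 + (p : ℤ) * h4 - (p : ℤ) * h3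
    · have h := Equiv.sum_comp (Equiv.subRight d1) G
      simp only [Equiv.subRight_apply] at h
      rw [Finset.sum_sub_distrib, h, sub_self, Finset.sum_sub_distrib, ← Finset.mul_sum, hu, Finset.sum_const,
        card_univ, ZMod.card, nsmul_eq_mul, sub_self]
  have hE : ∀ x, G (x + d2) - G x = u + a - p * (s x + seg d1 z a (x + d2)) := by
    intro x
    have h1 := hG (x + d2)
    have e1 : x + d2 + d3 = x - d1 := by linear_combination hsum
    rw [e1] at h1
    have h2 := hD x
    linear_combination -h2 - h1
  -- crossings with `s`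
  have c1 : ∀ k : ℕ, k < a → s (z + n + (k : ZMod p) * d1) = 0 := by
    intro k hk
    by_contra h
    have q1 := H.e1_ne ha fa hk (x := z + n + (k : ZMod p) * d1) (Or.inr rfl)
    rcases H.charge q1 (m1 _ h) with h1 | h1 | h1 | h1
    · rcases Nat.eq_zero_or_pos k with k0 | k0
      · rw [k0, Nat.cast_zero, zero_mul] at h1
        exact H.hn (by linear_combination h1)
      · exact (fa (-k) (by omega) (by rw [abs_lt]; omega)).2 (by push_cast; linear_combination -h1)
    · rcases Nat.eq_zero_or_pos k with k0 | k0
      · rw [k0, Nat.cast_zero, zero_mul] at h1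
        exact H.m_ne_n (by linear_combination -h1)
      · exact (fa (a - k) (by omega) (by rw [abs_lt]; omega)).2 (by push_cast; linear_combination ha - h1)
    · rw [h1] at h
      exact h m2
    · rcases Nat.eq_zero_or_pos k with k0 | k0
      · rw [k0, Nat.cast_zero, zero_mul] at h1
        exact H.hm (by linear_combination -h1)
      · exact (fa k (by omega) (by rw [abs_lt]; omega)).1 (by push_cast; linear_combination h1)
  have c2 : ∀ k : ℕ, k < c → s (z - d1 + n + (k : ZMod p) * d2) = 0 := by
    intro k hk
    by_contra h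
    have q1 := H.rot.e1_ne hc fc hk (x := z - d1 + n + (k : ZMod p) * d2) (Or.inr rfl)
    have ez : z - d1 - d2 = z + d3 := by linear_combination -hsum
    have H3 := H.rot.rot
    rw [ez] at H3
    rcases H3.charge (m1 _ h) q1 with h1 | h1 | h1 | h1
    · rcases Nat.lt_or_ge (k + 1) c with k1 | k1
      · exact (fc (-(k + 1 : ℕ)) (by omega) (by rw [abs_lt]; omega)).2 (by
          push_cast
          linear_combination -h1 - hsum)
      · have k2 : k + 1 = c := by omega
        refine H.m_ne_neg ?_
        rw [← hc, ← k2]
        push_cast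
        linear_combination h1 + hsum
    · rcases Nat.lt_or_ge (k + 1) c with k1 | k1
      · exact (fc (c - (k + 1 : ℕ)) (by omega) (by rw [abs_lt]; omega)).2 (by
          push_cast
          linear_combination hc - h1 - hsum)
      · have k2 : c = k + 1 := by omega
        refine H.hn ?_
        rw [k2] at hc
        push_cast at hc
        linear_combination h1 + hsum - hc
    · refine nat_mul_ne H.h2 (i := k + 1) (by omega) (by omega) ?_
      push_cast
      linear_combination h1 + hsum
    · rcases Nat.lt_or_ge (k + 1) c with k1 | k1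
      · exact (fc ((k + 1 : ℕ)) (by omega) (by rw [abs_lt]; omega)).1 (by
          push_cast
          linear_combination h1 + hsum)
      · rw [h1] at h
        exact h m3
  -- crossings of the first two directions
  have c3 : ∀ k : ℕ, k < c → seg d1 z a (z - d1 + n + (k : ZMod p) * d2 + d2) = 0 := by
    intro k hk
    refine seg_zero fun i hi h => ?_
    rcases Nat.lt_or_ge (k + 1) c with k1 | k1
    · have q1 := H.rot.e1_ne hc fc k1 (x := z - d1 + n + (k : ZMod p) * d2 + d2) (Or.inr (by push_cast; ring))
      have q2 := H.e1_ne ha fa hi (x := z - d1 + n + (k : ZMod p) * d2 + d2) (Or.inl h)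
      rcases H.rot.charge q1 q2 with h1 | h1 | h1 | h1
      · exact (fc (-(k + 1 : ℕ)) (by omega) (by rw [abs_lt]; omega)).2 (by
          push_cast
          linear_combination -h1)
      · exact (fc (c - (k + 1 : ℕ)) (by omega) (by rw [abs_lt]; omega)).2 (by
          push_cast
          linear_combination hc - h1)
      · refine nat_mul_ne H.h2 (i := k + 1) (by omega) (by omega) ?_
        push_cast
        linear_combination h1
      · exact (fc ((k + 1 : ℕ)) (by omega) (by rw [abs_lt]; omega)).1 (by
          push_cast
          linear_combination h1)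
    · have k2 : c = k + 1 := by omega
      rw [k2] at hc
      push_cast at hc
      have h3 : (((i : ℤ) + 1 - a : ℤ) : ZMod p) * d1 = n := by
        push_cast
        linear_combination hc - ha - h
      by_cases h4 : (i : ℤ) + 1 - a = 0
      · rw [h4, Int.cast_zero, zero_mul] at h3
        exact H.hn h3.symm
      · exact (fa _ h4 (by rw [abs_lt]; omega)).2 h3
  have p1 : ∀ k : ℕ, k ≤ a → G (z + n - d1 + (k : ZMod p) * d1) = G (z + n - d1) - k * u := by
    intro k
    induction k with
    | zero =>
      intro _
      simp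
    | succ k ih =>
      intro hk
      have h1 := ih (by omega)
      have h2 := hD (z + n + (k : ZMod p) * d1)
      rw [c1 k (by omega)] at h2
      have e1 : z + n - d1 + ((k + 1 : ℕ) : ZMod p) * d1 = z + n + (k : ZMod p) * d1 := by
        push_cast
        ring
      have e2 : z + n + (k : ZMod p) * d1 - d1 = z + n - d1 + (k : ZMod p) * d1 := by ring
      rw [e1]
      rw [e2] at h2
      push_cast
      linear_combination h2 + h1
  have p2 : ∀ k : ℕ, k ≤ c → G (z + n - d1 + (k : ZMod p) * d2) = G (z + n - d1) + k * (u + a) := by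
    intro k
    induction k with
    | zero =>
      intro _
      simp
    | succ k ih =>
      intro hk
      have h1 := ih (by omega)
      have h2 := hE (z - d1 + n + (k : ZMod p) * d2)
      rw [c2 k (by omega), c3 k (by omega)] at h2
      have e1 : z + n - d1 + ((k + 1 : ℕ) : ZMod p) * d2 = z - d1 + n + (k : ZMod p) * d2 + d2 := by
        push_cast
        ring
      have e2 : z - d1 + n + (k : ZMod p) * d2 = z + n - d1 + (k : ZMod p) * d2 := by ring
      rw [e1]
      rw [e2] at h2 ⊢
      push_cast
      linear_combination h2 + h1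
  have h1 := p1 a le_rfl
  have h2 := p2 c le_rfl
  rw [ha] at h1
  rw [hc] at h2
  rw [h1] at h2
  linarith

/-- three letters `m`, the first two with equal signs -/
theorem caseB (H : Flat3 d1 d2 d3 N1 N2 N3 K z m n τ) {a b c : ℕ}
    (a0 : 0 < a) (b0 : 0 < b) (c0 : 0 < c) (ap : a < p) (bp : b < p) (cp : c < p)
    (fa : Free d1 m n a) (fb : Free d3 m n b) (fc : Free d2 m n c)
    (ha : (a : ZMod p) * d1 = m) (hc : (c : ZMod p) * d2 = m)
    (hb : (b : ZMod p) * d3 = m ∨ (b : ZMod p) * d3 = -m) : False := by
  have ez : z - d1 - d2 = z + d3 := by linear_combination -H.sum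
  have H3 := H.rot.rot
  rw [ez] at H3
  have ez' : z + m - d1 - d2 = z + m + d3 := by linear_combination -H.sum
  have H3' := H.flipm.rot.rot
  rw [ez'] at H3'
  rcases hb with hb | hb
  · have h := walk H a0 c0 ap cp ha hc fa fc (s := fun x => seg d3 (z + d3) b x) (u := b) (fun x => ?_) ?_
      (fun x hx => ?_) ?_ ?_
    · have h1 : (0 : ℤ) < a := by exact_mod_cast a0
      have h2 : (0 : ℤ) < b := by exact_mod_cast b0
      have h3 : (0 : ℤ) < c := by exact_mod_cast c0
      have h4 := mul_pos h1 h2
      have h5 := mul_pos h3 (add_pos h2 h1)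
      linarith
    · have h1 := seg_diff d3 (z + d3) b (x + d3)
      rw [add_sub_cancel_right, hb, dl_add, dl_add, add_sub_cancel_right] at h1
      have e : z + d3 + m - d3 = z + m := by ring
      rw [e] at h1
      exact h1
    · exact sum_seg _ _ _
    · obtain ⟨j, hj, hjx⟩ := mem_of_seg hx
      exact H3.e1_ne hb fb hj (Or.inl hjx)
    · refine seg_zero fun j hj h => ?_
      rcases Nat.lt_or_ge (j + 1) b with j1 | j1
      · exact (fb ((j + 1 : ℕ)) (by omega) (by rw [abs_lt]; omega)).2 (by
          push_cast
          linear_combination -h)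
      · have j2 : b = j + 1 := by omega
        rw [j2] at hb
        push_cast at hb
        exact H.m_ne_n (by linear_combination -h - hb)
    · refine seg_zero fun j hj h => ?_
      rcases Nat.eq_zero_or_pos j with j0 | j0
      · rw [j0, Nat.cast_zero, zero_mul] at h
        exact H.m_ne_neg (by linear_combination h)
      · exact (fb (-(b - j)) (by omega) (by rw [abs_lt]; omega)).2 (by
          push_cast
          linear_combination -hb - h)
  · have h := walk H a0 c0 ap cp ha hc fa fc (s := fun x => -seg d3 (z + m + d3) b x) (u := -(b : ℤ)) (fun x => ?_) ?_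
      (fun x hx => ?_) ?_ ?_
    · -- the equation `b (a + c) = a c`
      have h0 : b * (a + c) = a * c := by
        have : (b : ℤ) * (a + c) = a * c := by linarith
        exact_mod_cast this
      obtain ⟨g, α, β, hg, hcop, hα, hβ⟩ : ∃ g α β : ℕ, 0 < g ∧ Nat.Coprime α β ∧ a = g * α ∧ c = g * β := by
        obtain ⟨α, β, hcop, h1, h2⟩ := Nat.exists_coprime a c
        refine ⟨Nat.gcd a c, α, β, Nat.gcd_pos_of_pos_left _ a0, hcop, ?_, ?_⟩
        · rw [mul_comm]; exact h1
        · rw [mul_comm]; exact h2
      have hα0 : 0 < α := by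
        rcases Nat.eq_zero_or_pos α with h1 | h1
        · rw [h1, mul_zero] at hα; omega
        · exact h1
      have hβ0 : 0 < β := by
        rcases Nat.eq_zero_or_pos β with h1 | h1
        · rw [h1, mul_zero] at hβ; omega
        · exact h1
      have h1 : b * (α + β) = g * (α * β) := by
        have h2 : g * (b * (α + β)) = g * (g * (α * β)) := by
          rw [hα, hβ] at h0
          calc g * (b * (α + β)) = b * (g * α + g * β) := by ring
            _ = g * α * (g * β) := h0
            _ = g * (g * (α * β)) := by ring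
        exact Nat.eq_of_mul_eq_mul_left hg h2
      have h2 : (α + β) ∣ g := by
        have h3 : Nat.Coprime (α + β) (α * β) := by
          refine Nat.Coprime.mul_right ?_ ?_
          · rw [Nat.coprime_self_add_left]
            exact hcop.symm
          · rw [Nat.coprime_add_self_left]
            exact hcop
        exact h3.dvd_of_dvd_mul_right ⟨b, by rw [← h1]; ring⟩
      have h3 := Nat.le_of_dvd hg h2
      have hαa : α < a := by
        rw [hα]
        calc α < 2 * α := by omega
          _ ≤ g * α := Nat.mul_le_mul_right α (by omega)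
      have hβc : β < c := by
        rw [hβ]
        calc β < 2 * β := by omega
          _ ≤ g * β := Nat.mul_le_mul_right β (by omega)
      have hgu : IsUnit (g : ZMod p) := by
        have h5 : IsUnit ((a : ZMod p) * d1) := by
          rw [ha]
          exact H.um
        have h6 : (a : ZMod p) * d1 = (g : ZMod p) * ((α : ZMod p) * d1) := by
          rw [hα]
          push_cast
          ring
        rw [h6] at h5
        exact isUnit_of_mul_isUnit_left h5
      have h4 : (α : ZMod p) * d1 = (β : ZMod p) * d2 := by
        have h6 := ha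
        have h7 := hc
        rw [hα] at h6
        rw [hβ] at h7
        push_cast at h6 h7
        have h8 : (g : ZMod p) * ((α : ZMod p) * d1 - (β : ZMod p) * d2) = 0 := by
          linear_combination h6 - h7
        exact sub_eq_zero.1 ((hgu.mul_right_eq_zero).1 h8)
      have q1 := H.e1_ne ha fa (i := α - 1) (by omega) (x := z - d1 + (α : ZMod p) * d1) (Or.inl (by
        rw [Nat.cast_sub (by omega), Nat.cast_one]
        ring))
      have q2 := H.rot.e1_ne hc fc hβc (x := z - d1 + (α : ZMod p) * d1) (Or.inl (by rw [h4]))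
      rcases H.rot.charge q2 q1 with h1 | h1 | h1 | h1
      · exact nat_mul_ne H.h1 hα0 (by omega) (by linear_combination h1)
      · exact (fa α (by omega) (by rw [abs_lt]; omega)).1 (by push_cast; linear_combination h1)
      · exact (fa α (by omega) (by rw [abs_lt]; omega)).2 (by push_cast; linear_combination h1)
      · exact (fa (α - a) (by omega) (by rw [abs_lt]; omega)).2 (by push_cast; linear_combination h1 - ha)
    · have h1 := seg_diff d3 (z + m + d3) b (x + d3)
      rw [add_sub_cancel_right, hb, dl_add, dl_add, add_sub_cancel_right] at h1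
      have e : z + m + d3 + -m - d3 = z := by ring
      rw [e] at h1
      show -seg d3 (z + m + d3) b (x + d3) - -seg d3 (z + m + d3) b x = dl z x - dl (z + m) x
      linear_combination -h1
    · rw [Finset.sum_neg_distrib, sum_seg]
    · obtain ⟨j, hj, hjx⟩ := mem_of_seg (neg_ne_zero.1 hx)
      exact H3'.e1_ne hb fb.flipm hj (Or.inl hjx)
    · show -seg d3 (z + m + d3) b (z + n) = 0
      rw [neg_eq_zero]
      refine seg_zero fun j hj h => ?_
      by_cases j1 : (j : ℤ) + 1 - b = 0
      · have j2 : b = j + 1 := by omega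
        rw [j2] at hb
        push_cast at hb
        exact H.hn (by linear_combination h + hb)
      · exact (fb _ j1 (by rw [abs_lt]; omega)).2 (by
          push_cast
          linear_combination -h - hb)
    · show -seg d3 (z + m + d3) b (z + d3 + m + n) = 0
      rw [neg_eq_zero]
      refine seg_zero fun j hj h => ?_
      rcases Nat.eq_zero_or_pos j with j0 | j0
      · rw [j0, Nat.cast_zero, zero_mul] at h
        exact H.hn (by linear_combination h)
      · exact (fb j (by omega) (by rw [abs_lt]; omega)).2 (by
          push_cast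
          linear_combination -h)

/-- three letters `m` are impossible -/
theorem no_mmm (H : Flat3 d1 d2 d3 N1 N2 N3 K z m n τ) {a b c : ℕ}
    (a0 : 0 < a) (b0 : 0 < b) (c0 : 0 < c) (ap : a < p) (bp : b < p) (cp : c < p)
    (fa : Free d1 m n a) (fb : Free d3 m n b) (fc : Free d2 m n c)
    (ha : (a : ZMod p) * d1 = m ∨ (a : ZMod p) * d1 = -m) (hb : (b : ZMod p) * d3 = m ∨ (b : ZMod p) * d3 = -m)
    (hc : (c : ZMod p) * d2 = m ∨ (c : ZMod p) * d2 = -m) : False := by
  rcases ha with ha | ha <;> rcases hc with hc | hc
  · exact caseB H a0 b0 c0 ap bp cp fa fb fc ha hc hb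
  · rcases hb with hb | hb
    · exact caseB H.rot.rot b0 c0 a0 bp cp ap fb fc fa hb ha (Or.inr hc)
    · exact caseB H.flipm.rot c0 a0 b0 cp ap bp fc.flipm fa.flipm fb.flipm hc hb (Or.inr (by rw [neg_neg]; exact ha))
  · rcases hb with hb | hb
    · exact caseB H.rot c0 a0 b0 cp ap bp fc fa fb hc hb (Or.inr ha)
    · exact caseB H.flipm.rot.rot b0 c0 a0 bp cp ap fb.flipm fc.flipm fa.flipm hb ha
        (Or.inr (by rw [neg_neg]; exact hc))
  · exact caseB H.flipm a0 b0 c0 ap bp cp fa.flipm fb.flipm fc.flipm ha hc (by rw [neg_neg]; exact hb.symm)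

/-- the triangle lemma -/
theorem no_flat (H : Flat3 d1 d2 d3 N1 N2 N3 K z m n τ) : False := by
  obtain ⟨a, a0, ap, fa, ha⟩ := exists_letter n H.h1 H.hm
  obtain ⟨c, c0, cp, fc, hc⟩ := exists_letter n H.h2 H.hm
  obtain ⟨b, b0, bp, fb, hb⟩ := exists_letter n H.h3 H.hm
  rcases ha with ha | ha <;> rcases hc with hc | hc <;> rcases hb with hb | hb
  · exact no_mmm H a0 b0 c0 ap bp cp fa fb fc ha hb hc
  · exact no_mmn H a0 b0 c0 ap bp cp fa fb fc ha hb hc
  · exact no_mmn H.rot.rot b0 c0 a0 bp cp ap fb fc fa hb hc ha
  · exact no_mmn H.rot.swap c0 a0 b0 cp ap bp fc.swap fa.swap fb.swap hc ha hb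
  · exact no_mmn H.rot c0 a0 b0 cp ap bp fc fa fb hc ha hb
  · exact no_mmn H.rot.rot.swap b0 c0 a0 bp cp ap fb.swap fc.swap fa.swap hb hc ha
  · exact no_mmn H.swap a0 b0 c0 ap bp cp fa.swap fb.swap fc.swap ha hb hc
  · exact no_mmm H.swap a0 b0 c0 ap bp cp fa.swap fb.swap fc.swap ha hb hc

end Pool.Agent.H89.TL
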