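import Pool.Agent.H89.TL.Seg

/-!
MP_fd220b_nt, the triangle lemma: flat triples of functions on `ZMod p`.
-/

set_option autoImplicit false

namespace Pool.Agent.H89.TL

open Finset

variable {p : ℕ}

/-- four charges -/
def chg (z m n x : ZMod p) : ℤ := dl z x - dl (z + m) x - dl (z + n) x + dl (z + m + n) x

theorem chg_swap (z m n x : ZMod p) : chg z n m x = chg z m n x := by
  unfold chg
  have e : z + n + m = z + m + n := by ring
  rw [e]
  ring

theorem chg_flip (z m n x : ZMod p) : chg (z + m) (-m) n x = -chg z m n x := by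
  unfold chg
  have e1 : z + m + -m = z := by ring
  rw [e1]
  ring

theorem chg_sub (z m n x y : ZMod p) : chg z m n (x - y) = chg (z + y) m n x := by
  unfold chg
  rw [dl_sub, dl_sub, dl_sub, dl_sub]
  have e1 : z + m + y = z + y + m := by ring
  have e2 : z + n + y = z + y + n := by ring
  have e3 : z + m + n + y = z + y + m + n := by ring
  rw [e1, e2, e3]

theorem chg_add (z m n x y : ZMod p) : chg z m n (x + y) = chg (z - y) m n x := by
  have h := chg_sub z m n x (-y)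
  rw [sub_neg_eq_add, ← sub_eq_add_neg] at h
  exact h

theorem chg_zero {z m n x : ZMod p} (h0 : x ≠ z) (h1 : x ≠ z + m) (h2 : x ≠ z + n) (h3 : x ≠ z + m + n) :
    chg z m n x = 0 := by
  unfold chg
  rw [dl_ne h0, dl_ne h1, dl_ne h2, dl_ne h3]
  ring

/-- three functions whose sums over a plane are flat -/
structure Flat3 (d1 d2 d3 : ZMod p) (N1 N2 N3 : ZMod p → ℤ) (K : ℤ) (z m n : ZMod p) (τ : ℤ) : Prop where
  sum : d1 + d2 + d3 = 0
  h1 : IsUnit d1
  h2 : IsUnit d2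
  h3 : IsUnit d3
  um : IsUnit m
  un : IsUnit n
  hm : m ≠ 0
  hn : n ≠ 0
  ht : τ = 1 ∨ τ = -1
  diag : ∀ x, N1 x + N2 x + N3 x = K
  diag2 : ∀ x, N1 x + N2 (x + d3) + N3 (x - d2) = K
  plane : ∀ x1 x2 x3, d1 * x1 + d2 * x2 + d3 * x3 = 0 → |N1 x1 + N2 x2 + N3 x3 - K| ≤ 1
  ch : ∀ x, (N2 (x + d3) - N2 x) - (N2 (x - d1 + d3) - N2 (x - d1)) = τ * chg z m n x

namespace Flat3

variable {d1 d2 d3 : ZMod p} {N1 N2 N3 : ZMod p → ℤ} {K : ℤ} {z m n : ZMod p} {τ : ℤ}

/-- the difference `e1` -/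
theorem e1 (H : Flat3 d1 d2 d3 N1 N2 N3 K z m n τ) (x : ZMod p) : N2 (x + d3) - N2 x = N3 x - N3 (x - d2) := by
  have h1 := H.diag x
  have h2 := H.diag2 x
  linarith

theorem rot (H : Flat3 d1 d2 d3 N1 N2 N3 K z m n τ) : Flat3 d2 d3 d1 N2 N3 N1 K (z - d1) m n τ where
  sum := by
    have := H.sum
    linear_combination this
  h1 := H.h2
  h2 := H.h3
  h3 := H.h1
  um := H.um
  un := H.un
  hm := H.hm
  hn := H.hn
  ht := H.ht
  diag := fun x => by
    have := H.diag x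
    linarith
  diag2 := fun x => by
    have h := H.diag2 (x - d3)
    rw [sub_add_cancel] at h
    have e : x - d3 - d2 = x + d1 := by linear_combination -H.sum
    rw [e] at h
    linarith
  plane := fun x1 x2 x3 hx => by
    have h := H.plane x3 x1 x2 (by linear_combination hx)
    have e : N2 x1 + N3 x2 + N1 x3 - K = N1 x3 + N2 x1 + N3 x2 - K := by ring
    rw [e]
    exact h
  ch := fun x => by
    have h := H.ch (x + d1)
    rw [add_sub_cancel_right, chg_add, H.e1, H.e1 x] at h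
    have e : x + d1 - d2 = x - d2 + d1 := by ring
    rw [e] at h
    linarith

theorem swap (H : Flat3 d1 d2 d3 N1 N2 N3 K z m n τ) : Flat3 d1 d2 d3 N1 N2 N3 K z n m τ where
  sum := H.sum
  h1 := H.h1
  h2 := H.h2
  h3 := H.h3
  um := H.un
  un := H.um
  hm := H.hn
  hn := H.hm
  ht := H.ht
  diag := H.diag
  diag2 := H.diag2
  plane := H.plane
  ch := fun x => by rw [H.ch x, chg_swap]

theorem flipm (H : Flat3 d1 d2 d3 N1 N2 N3 K z m n τ) : Flat3 d1 d2 d3 N1 N2 N3 K (z + m) (-m) n (-τ) where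
  sum := H.sum
  h1 := H.h1
  h2 := H.h2
  h3 := H.h3
  um := H.um.neg
  un := H.un
  hm := neg_ne_zero.2 H.hm
  hn := H.hn
  ht := by
    rcases H.ht with h | h
    · right; rw [h]
    · left; rw [h]; norm_num
  diag := H.diag
  diag2 := H.diag2
  plane := H.plane
  ch := fun x => by rw [H.ch x, chg_flip]; ring

theorem flipn (H : Flat3 d1 d2 d3 N1 N2 N3 K z m n τ) : Flat3 d1 d2 d3 N1 N2 N3 K (z + n) m (-n) (-τ) :=
  H.swap.flipm.swap

theorem e2 (H : Flat3 d1 d2 d3 N1 N2 N3 K z m n τ) (x : ZMod p) : N3 (x + d1) - N3 x = N1 x - N1 (x - d3) :=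
  H.rot.e1 x

theorem e3 (H : Flat3 d1 d2 d3 N1 N2 N3 K z m n τ) (x : ZMod p) : N1 (x + d2) - N1 x = N2 x - N2 (x - d1) :=
  H.rot.rot.e1 x

theorem abs_tau (H : Flat3 d1 d2 d3 N1 N2 N3 K z m n τ) : |τ| = 1 := by
  rcases H.ht with h | h <;> rw [h] <;> norm_num

theorem ch_le (H : Flat3 d1 d2 d3 N1 N2 N3 K z m n τ) (x : ZMod p) : |chg z m n x| ≤ 1 := by
  have h1 := H.plane (x + d3) x (x + d3 + d2) (by linear_combination (x + d3) * H.sum)
  have h2 := H.ch x
  have h3 := H.diag (x + d3)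
  have h4 := H.e1 (x + d3 + d2)
  have e1 : x + d3 + d2 = x - d1 := by linear_combination H.sum
  rw [add_sub_cancel_right, e1] at h4
  rw [e1] at h1
  have h5 : N1 (x + d3) + N2 x + N3 (x - d1) - K = -(τ * chg z m n x) := by
    rw [← h2]
    linarith
  rw [h5, abs_neg, abs_mul, H.abs_tau, one_mul] at h1
  exact h1

theorem m_ne_n (H : Flat3 d1 d2 d3 N1 N2 N3 K z m n τ) : m ≠ n := by
  intro h
  subst h
  have h1 := H.ch_le (z + m)
  have h2 : chg z m m (z + m) = -2 := by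
    unfold chg
    rw [dl_self, dl_ne (a := z), dl_ne (a := z + m + m)]
    · norm_num
    · intro h3
      exact H.hm (by linear_combination -h3)
    · intro h3
      exact H.hm (by linear_combination h3)
  rw [h2] at h1
  norm_num at h1

theorem m_ne_neg (H : Flat3 d1 d2 d3 N1 N2 N3 K z m n τ) : m ≠ -n := by
  intro h
  have h1 := H.flipn.m_ne_n
  exact h1 h

/-- no crossing of `e1` and `e3` without a charge -/
theorem nc_of (H : Flat3 d1 d2 d3 N1 N2 N3 K z m n τ) (hb : ∀ a b, |N2 a - N2 b| ≤ 1) (x : ZMod p)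
    (hx : chg z m n x = 0) : N2 (x + d3) - N2 x = 0 ∨ N2 x - N2 (x - d1) = 0 := by
  have h1 := H.ch x
  rw [hx, mul_zero] at h1
  have h2 := hb (x + d3) (x - d1)
  have h3 := hb (x - d1 + d3) x
  rw [abs_le] at h2 h3
  omega

end Flat3

section

variable [NeZero p] {d1 d2 d3 : ZMod p} {N1 N2 N3 : ZMod p → ℤ} {K : ℤ} {z m n : ZMod p} {τ : ℤ}

/-- the value of the plane sum, `x1` and `x2` given -/
theorem Flat3.line (H : Flat3 d1 d2 d3 N1 N2 N3 K z m n τ) (a : ZMod p) :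
    ∃ V : ℤ, |V| ≤ p - 1 ∧
      p * N1 a + (∑ x : ZMod p, N2 x + ∑ x : ZMod p, N3 x - p * K) = V := by
  refine ⟨_, ?_, rfl⟩
  obtain ⟨c, hc⟩ := H.h3.exists_left_inv
  have hp : (1 : ℤ) ≤ p := by exact_mod_cast Nat.one_le_iff_ne_zero.2 (NeZero.ne p)
  set f : ZMod p → ℤ := fun x => N1 a + N2 x + N3 (-(d1 * a + d2 * x) * c) - K with hf
  have hle : ∀ x, |f x| ≤ 1 := by
    intro x
    refine H.plane a x _ ?_
    linear_combination (-(d1 * a + d2 * x)) * hc
  have hfa : f a = 0 := by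
    have e : -(d1 * a + d2 * a) * c = a := by
      linear_combination (-a * c) * H.sum + a * hc
    rw [hf]
    show N1 a + N2 a + N3 (-(d1 * a + d2 * a) * c) - K = 0
    rw [e, H.diag a]
    ring
  have hsum : ∑ x : ZMod p, f x = p * N1 a + (∑ x : ZMod p, N2 x + ∑ x : ZMod p, N3 x - p * K) := by
    have e : ∑ x : ZMod p, N3 (-(d1 * a + d2 * x) * c) = ∑ x : ZMod p, N3 x := by
      have hu : IsUnit (-d2 * c) := H.h2.neg.mul (IsUnit.of_mul_eq_one _ hc)
      have h5 := Equiv.sum_comp ((Units.mulRight hu.unit).trans (Equiv.addRight (-(d1 * a) * c))) N3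
      rw [← h5]
      refine Finset.sum_congr rfl fun x _ => ?_
      congr 1
      show -(d1 * a + d2 * x) * c = x * (-d2 * c) + -(d1 * a) * c
      ring
    rw [hf]
    simp only [Finset.sum_sub_distrib, Finset.sum_add_distrib, Finset.sum_const, card_univ, ZMod.card, nsmul_eq_mul]
    rw [e]
    ring
  rw [← hsum, ← Finset.add_sum_erase _ _ (mem_univ a), hfa, zero_add]
  calc |∑ x ∈ univ.erase a, f x| ≤ ∑ x ∈ univ.erase a, |f x| := Finset.abs_sum_le_sum_abs _ _
    _ ≤ ∑ x ∈ univ.erase a, (1 : ℤ) := Finset.sum_le_sum fun x _ => hle x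
    _ = p - 1 := by
      rw [Finset.sum_const, Finset.card_erase_of_mem (mem_univ a), card_univ, ZMod.card, nsmul_eq_mul, mul_one]
      rw [Nat.cast_sub (by exact_mod_cast hp), Nat.cast_one]

theorem Flat3.bnd1 (H : Flat3 d1 d2 d3 N1 N2 N3 K z m n τ) (a b : ZMod p) : |N1 a - N1 b| ≤ 1 := by
  obtain ⟨V, h1, h2⟩ := H.line a
  obtain ⟨W, h3, h4⟩ := H.line b
  have hp : (1 : ℤ) ≤ p := by exact_mod_cast Nat.one_le_iff_ne_zero.2 (NeZero.ne p)
  have h5 : p * (N1 a - N1 b) = V - W := by linarith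
  rw [abs_le] at h1 h3 ⊢
  have h6 : p * (N1 a - N1 b) < p * 2 := by linarith
  have h7 : p * (-2) < p * (N1 a - N1 b) := by linarith
  have h8 := lt_of_mul_lt_mul_left h6 (by linarith)
  have h9 := lt_of_mul_lt_mul_left h7 (by linarith)
  constructor <;> omega

theorem Flat3.bnd2 (H : Flat3 d1 d2 d3 N1 N2 N3 K z m n τ) (a b : ZMod p) : |N2 a - N2 b| ≤ 1 :=
  H.rot.bnd1 a b

theorem Flat3.bnd3 (H : Flat3 d1 d2 d3 N1 N2 N3 K z m n τ) (a b : ZMod p) : |N3 a - N3 b| ≤ 1 :=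
  H.rot.rot.bnd1 a b

/-- directions 1 and 3 -/
theorem Flat3.nc (H : Flat3 d1 d2 d3 N1 N2 N3 K z m n τ) (x : ZMod p)
    (hx : chg z m n x = 0) : N2 (x + d3) - N2 x = 0 ∨ N2 x - N2 (x - d1) = 0 :=
  H.nc_of H.bnd2 x hx

end

end Pool.Agent.H89.TL
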