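import Pool.Agent.H89.TL.Red
import Pool.Agent.H89.FP.SmallW4

/-!
MP_fd220b_nt: a coefficient of absolute value at least two if the inverse of `r` modulo `q` is small and
`s r = 1 + t q` with `s t` prime to `p`.
-/

set_option autoImplicit false

namespace Pool.Agent.H89.TL

open Finset Polynomial Pool.Agent.H84.FL Pool.Agent.H89.FP

theorem isUnit_of_coprime {p : ℕ} {x : ℤ} (h : IsCoprime x (p : ℤ)) : IsUnit (x : ZMod p) := by
  obtain ⟨a, b, hab⟩ := h
  have h2 : ((a * x + b * p : ℤ) : ZMod p) = 1 := by rw [hab]; simp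
  push_cast at h2
  rw [ZMod.natCast_self, mul_zero, add_zero, mul_comm] at h2
  exact IsUnit.of_mul_eq_one _ h2

/-- a coefficient of absolute value at least two -/
theorem coeff_modq {p q r : ℕ} {s t : ℤ} (hp : 1 < p) (hpq : p < q) (hqr : q < r) (c1 : p.Coprime q)
    (c2 : p.Coprime r) (hs : s * r = 1 + t * q) (hps : IsCoprime s (p : ℤ)) (hpt : IsCoprime t (p : ℤ))
    (hsq : |s| * (p - 1) + p ≤ q) {F : ℤ[X]} (hF : IsIE p q r F) :
    ∃ n : ℕ, 2 ≤ |F.coeff n| := by
  have : NeZero p := ⟨by omega⟩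
  -- the inverse of `q`
  obtain ⟨lam, hl⟩ : ∃ lam : ℤ, (q : ℤ) * lam ≡ 1 [ZMOD p] := by
    refine ⟨(((q : ZMod p)⁻¹).val : ℤ), ?_⟩
    rw [← ZMod.intCast_eq_intCast_iff]
    push_cast
    rw [ZMod.natCast_zmod_val]
    exact ZMod.coe_mul_inv_eq_one q c1.symm
  -- the inverse of `r` modulo `p`
  have hrc : IsCoprime (r : ℤ) (p : ℤ) := (Nat.isCoprime_iff_coprime).2 c2.symm
  obtain ⟨r', v, hr'⟩ := hrc
  -- `w = s - t r' q`
  have hw : (r : ℤ) * (s + -(t * r') * q) ≡ 1 [ZMOD p * q] := by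
    rw [Int.modEq_iff_dvd]
    exact ⟨-(t * v), by linear_combination -hs + t * q * hr'⟩
  have hr'u : IsCoprime r' (p : ℤ) := ⟨r, v, by linear_combination hr'⟩
  have hβ : IsUnit ((-(t * r') : ℤ) : ZMod p) := isUnit_of_coprime (IsCoprime.neg_left (hpt.mul_left hr'u))
  have hsu := isUnit_of_coprime hps
  have hwu : IsUnit ((s + -(t * r') * q : ℤ) : ZMod p) := by
    refine isUnit_of_coprime ?_
    obtain ⟨c, hc⟩ := hw.dvd
    exact ⟨r, c * q, by linear_combination -hc⟩
  have hp1 : ((p - 1 : ℕ) : ℤ) = p - 1 := by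
    rw [Nat.cast_sub (by omega)]
    simp
  refine exists_coeff (w := s + -(t * r') * q) (by omega) hpq hqr hl hw hF ?_
  rcases le_total 0 s with h0 | h0
  · obtain ⟨A, rfl⟩ := Int.eq_ofNat_of_zero_le h0
    rw [abs_of_nonneg h0, ← hp1] at hsq
    exact big_of (A := A) (β := -(t * r')) hp (by exact_mod_cast hsq) hl (by exact_mod_cast hsu) hβ (by
      push_cast at hwu ⊢
      exact hwu)
  · obtain ⟨A, hA⟩ := Int.eq_ofNat_of_zero_le (neg_nonneg.2 h0)
    rw [abs_of_nonpos h0, hA, ← hp1] at hsq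
    have e1 : s = -(A : ℤ) := by rw [← hA]; ring
    have h1 := big_of (A := A) (β := t * r') hp (by exact_mod_cast hsq) hl (by
      rw [e1] at hsu
      push_cast at hsu
      exact (IsUnit.neg_iff _).1 hsu) (by
      push_cast at hβ ⊢
      exact (IsUnit.neg_iff _).1 hβ) (by
      rw [e1] at hwu
      push_cast at hwu ⊢
      rw [← IsUnit.neg_iff]
      have e : -((A : ZMod p) + (t : ZMod p) * (r' : ZMod p) * (q : ZMod p)) =
        -(A : ZMod p) + -((t : ZMod p) * (r' : ZMod p)) * (q : ZMod p) := by ring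
      rw [e]
      exact hwu)
    refine Big.neg ?_
    have e2 : -(s + -(t * r') * q) = A + t * r' * q := by
      rw [e1]
      ring
    rw [e2]
    exact h1

end Pool.Agent.H89.TL
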