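import Pool.Agent.H89.TL.PS
import Pool.Agent.H89.TL.CaseA2

/-!
MP_fd220b_nt: `w = A + β q` with small `A` divisible by `p`: values of absolute value at least two.
-/

set_option autoImplicit false

namespace Pool.Agent.H89.TL

open Finset Pool.Agent.H89.FP

/-- a row where a multiple of `n` is large -/
theorem find_row {p q0 n W : ℕ} (h1 : 2 ≤ q0) (h2 : q0 + 2 ≤ p) (hn : 2 ≤ n) (hnp : n < p) (hW : 0 < W) (hWp : W < p)
    (h : W * n ≡ q0 [MOD p]) :
    ∃ a : ℕ, 1 ≤ a ∧ 2 * a + 1 ≤ p ∧ ((a < W ∧ q0 ≤ (a * n) % p) ∨ (a + W < p ∧ p ≤ q0 + (a * n) % p)) := by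
  have hq0 : q0 % p = q0 := Nat.mod_eq_of_lt (by omega)
  have hn0 : n % p = n := Nat.mod_eq_of_lt hnp
  have hmod : (W * n) % p = q0 := by
    have h3 : (W * n) % p = q0 % p := h
    rw [h3, hq0]
  rcases Nat.lt_or_ge q0 n with c1 | c1
  · refine ⟨1, le_rfl, by omega, Or.inl ⟨?_, ?_⟩⟩
    · rcases Nat.lt_or_ge 1 W with h4 | h4
      · exact h4
      · exfalso
        have h5 : W = 1 := by omega
        rw [h5, one_mul, hn0] at hmod
        omega
    · rw [one_mul, hn0]
      omega
  rcases Nat.lt_or_ge (p - q0) n with c2 | c2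
  · refine ⟨1, le_rfl, by omega, Or.inr ⟨?_, ?_⟩⟩
    · rcases Nat.lt_or_ge (1 + W) p with h4 | h4
      · exact h4
      · exfalso
        have h5 : p = W + 1 := by omega
        have h6 : (W * n + n) % p = 0 := by
          have : W * n + n = p * n := by rw [h5]; ring
          rw [this]
          exact Nat.mul_mod_right p n
        rw [Nat.add_mod, hmod, hn0] at h6
        have h7 : p ∣ q0 + n := Nat.dvd_of_mod_eq_zero h6
        obtain ⟨t, ht⟩ := h7
        have h8 : t = 1 := by
          rcases Nat.lt_or_ge t 1 with h9 | h9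
          · have : t = 0 := by omega
            rw [this, mul_zero] at ht
            omega
          · rcases Nat.lt_or_ge 1 t with h10 | h10
            · have h11 : p * 2 ≤ p * t := Nat.mul_le_mul_left p h10
              omega
            · omega
        rw [h8, mul_one] at ht
        omega
    · rw [one_mul, hn0]
      omega
  -- `n ≤ q0`, `n ≤ p - q0`
  have hceil : ∀ y : ℕ, 0 < y → ∃ a : ℕ, 1 ≤ a ∧ y ≤ a * n ∧ a * n < y + n := by
    intro y hy
    refine ⟨(y - 1) / n + 1, Nat.le_add_left 1 _, ?_, ?_⟩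
    · have h3 := Nat.lt_div_mul_add (a := y - 1) (show 0 < n by omega)
      rw [add_mul, one_mul]
      omega
    · have h3 := Nat.div_mul_le_self (y - 1) n
      rw [add_mul, one_mul]
      omega
  obtain ⟨a1, a10, a11, a12⟩ := hceil q0 (by omega)
  have b1 : 2 * a1 ≤ a1 * n := by
    rw [mul_comm 2 a1]
    exact Nat.mul_le_mul_left a1 hn
  rcases Nat.lt_or_ge a1 W with c3 | c3
  · refine ⟨a1, a10, by omega, Or.inl ⟨c3, ?_⟩⟩
    rw [Nat.mod_eq_of_lt (by omega)]
    exact a11
  have hWn : W * n ≤ a1 * n := Nat.mul_le_mul_right n c3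
  have hWn2 : W * n = q0 := by
    rw [Nat.mod_eq_of_lt (by omega)] at hmod
    exact hmod
  obtain ⟨a2, a20, a21, a22⟩ := hceil (p - q0) (by omega)
  have b2 : 2 * a2 ≤ a2 * n := by
    rw [mul_comm 2 a2]
    exact Nat.mul_le_mul_left a2 hn
  rcases Nat.lt_or_ge (a2 + W) p with c4 | c4
  · refine ⟨a2, a20, by omega, Or.inr ⟨c4, ?_⟩⟩
    rw [Nat.mod_eq_of_lt (by omega)]
    omega
  · exfalso
    have h3 : p * n ≤ (a2 + W) * n := Nat.mul_le_mul_right n c4
    rw [add_mul, hWn2] at h3
    have h4 : p * 2 ≤ p * n := Nat.mul_le_mul_left p hn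
    omega

variable {p : ℕ} [NeZero p]

theorem pos_zero {lam : ℤ} {c0 : ℕ} (hp1 : 1 < p) (hL : 0 < (lam : ZMod p).val) (hc : (c0 : ZMod p) = 0) :
    Pos p lam c0 (lam : ZMod p).val 1 := by
  have hLp : (lam : ZMod p).val < p := ZMod.val_lt _
  constructor
  · intro ρ hρ
    rw [hc, mul_zero, add_zero, zero_sub, seg_val hLp.le, seg_val hLp.le, ZMod.val_natCast_of_lt (by omega),
      if_pos hρ, if_neg]
    · norm_num
    · have e : (-1 : ZMod p) = ((p - 1 : ℕ) : ZMod p) := by
        rw [Nat.cast_sub hp1.le, ZMod.natCast_self]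
        push_cast
        ring
      rw [e, ZMod.val_natCast_of_lt (by omega)]
      omega
  · intro ρ hρ
    have e : (ρ : ZMod p) + 0 + 1 = ((ρ + 1 : ℕ) : ZMod p) := by
      push_cast
      ring
    rw [hc, mul_zero, e, seg_val hLp.le, seg_val hLp.le, ZMod.val_natCast_of_lt (by omega), if_pos hρ, ZMod.val_zero,
      if_pos hL]
    norm_num

theorem pos_one {lam : ℤ} {c0 : ℕ} (hL : 0 < (lam : ZMod p).val) (hc : (c0 : ZMod p) = 1) :
    Pos p lam c0 (p - (lam : ZMod p).val) (-1) := by
  have hLp : (lam : ZMod p).val < p := ZMod.val_lt _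
  have hcast : (((lam : ZMod p).val : ℕ) : ZMod p) = (lam : ZMod p) := ZMod.natCast_zmod_val _
  constructor
  · intro ρ hρ
    have e1 : (ρ : ZMod p) + (lam : ZMod p) * 1 = ((ρ + (lam : ZMod p).val : ℕ) : ZMod p) := by
      push_cast
      rw [hcast]
      ring
    have e2 : (lam : ZMod p) * 1 - 1 = (((lam : ZMod p).val - 1 : ℕ) : ZMod p) := by
      rw [Nat.cast_sub (by omega), hcast]
      push_cast
      ring
    rw [hc, e1, e2, seg_val hLp.le, seg_val hLp.le, ZMod.val_natCast_of_lt (by omega),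
      ZMod.val_natCast_of_lt (by omega), if_neg (by omega), if_pos (by omega)]
    norm_num
  · intro ρ hρ
    have e1 : (ρ : ZMod p) + (lam : ZMod p) * 1 + 1 = ((ρ + (lam : ZMod p).val + 1 : ℕ) : ZMod p) := by
      push_cast
      rw [hcast]
      ring
    rw [hc, e1, mul_one, seg_val hLp.le, seg_val hLp.le, ZMod.val_natCast_of_lt (by omega), if_neg (by omega),
      if_neg (by omega)]
    norm_num

theorem val_neg_sub_one {y : ZMod p} : (-y - 1).val = p - 1 - y.val := by
  have hy : y.val < p := ZMod.val_lt y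
  have e : -y - 1 = ((p - 1 - y.val : ℕ) : ZMod p) := by
    have h1 : ((p - 1 - y.val : ℕ) : ZMod p) + ((y.val : ℕ) : ZMod p) + 1 = ((p : ℕ) : ZMod p) := by
      rw [← Nat.cast_add, ← Nat.cast_succ]
      congr 1
      omega
    rw [ZMod.natCast_zmod_val, ZMod.natCast_self] at h1
    linear_combination -h1
  rw [e, ZMod.val_natCast_of_lt (by omega)]

/-- the generic case -/
theorem big_ps {q A : ℕ} {lam β : ℤ} (hp1 : 1 < p) (hl : (q : ℤ) * lam ≡ 1 [ZMOD p]) (hA : p ∣ A) (A0 : 0 < A)
    (hAq : A * (p - 1) < q) (hβ : IsUnit (β : ZMod p)) (h1 : 2 ≤ q % p) (h2 : q % p + 2 ≤ p) :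
    Big p q lam (A + β * q) := by
  have : Fact (1 < p) := ⟨hp1⟩
  have hql : ((q : ℤ) : ZMod p) * (lam : ZMod p) = 1 := cast_lam hl
  push_cast at hql
  have hLu : IsUnit (lam : ZMod p) := IsUnit.of_mul_eq_one (q : ZMod p) (by rw [mul_comm]; exact hql)
  have hQu : IsUnit (q : ZMod p) := IsUnit.of_mul_eq_one _ hql
  have hL0 : 0 < (lam : ZMod p).val := by
    rcases Nat.eq_zero_or_pos (lam : ZMod p).val with h | h
    · exfalso
      rw [ZMod.val_eq_zero] at h
      exact hLu.ne_zero h
    · exact h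
  have hL1 : (lam : ZMod p).val ≠ 1 := by
    intro h
    have h3 : (lam : ZMod p) = 1 := by
      rw [← ZMod.natCast_zmod_val (lam : ZMod p), h, Nat.cast_one]
    rw [h3, mul_one] at hql
    have h4 : (q : ZMod p) = ((1 : ℕ) : ZMod p) := by simpa using hql
    rw [ZMod.natCast_eq_natCast_iff', Nat.mod_eq_of_lt hp1] at h4
    omega
  have hLp : (lam : ZMod p).val < p := ZMod.val_lt _
  have hqv : (q : ZMod p).val = q % p := ZMod.val_natCast p q
  have hA0 : (A : ZMod p) = 0 := (ZMod.natCast_eq_zero_iff A p).2 hA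
  have hAp : p ≤ A := Nat.le_of_dvd A0 hA
  obtain ⟨ν, hν⟩ := hβ.exists_left_inv
  obtain ⟨n, hn⟩ : ∃ n : ℕ, n = ν.val := ⟨_, rfl⟩
  have hnp : n < p := by rw [hn]; exact ZMod.val_lt _
  have hnc : (n : ZMod p) = ν := by rw [hn, ZMod.natCast_zmod_val]
  have hn0 : n ≠ 0 := by
    intro h
    rw [h, Nat.cast_zero] at hnc
    rw [← hnc, zero_mul] at hν
    exact zero_ne_one hν
  by_cases hn1 : n = 1
  · -- the case `β ≡ 1`
    have hβ1 : (β : ZMod p) = 1 := by
      rw [hn1, Nat.cast_one] at hnc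
      rw [← hnc, one_mul] at hν
      exact hν
    have P := pos_zero (lam := lam) (c0 := A) hp1 hL0 hA0
    have hAq2 : A < q := lt_of_le_of_lt (Nat.le_mul_of_pos_right A (by omega)) hAq
    have hM : 1 < (lam : ZMod p).val := by omega
    have hlow := fun (e : ℕ) (he : A * e ≤ A) (R0 : ℤ) =>
      V_low (β := β) hp1 hl hA A0 P hAq2 (e := e) (f := 0) (a := 1) he (by omega) hM R0
    have hhigh := fun (e : ℕ) (he : A < A * e) (hep : e < p) (R0 : ℤ) =>
      V_high (β := β) hp1 hl hA hAq P hAq2 (e := e) (f := 0) (a := 1) he hep (by omega) hM R0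
    have hs : ∀ R0 : ℤ, ∑ e ∈ range p, At p q lam (((1 : ℕ) : ℤ) * q + (A - A * ((0 : ℕ) : ℤ)))
        (tt p q (A + β * q) (R0 * q + A) e) =
        At p q lam (((1 : ℕ) : ℤ) * q + (A - A * ((0 : ℕ) : ℤ))) (tt p q (A + β * q) (R0 * q + A) ((0 : ℕ) : ℤ)) +
        At p q lam (((1 : ℕ) : ℤ) * q + (A - A * ((0 : ℕ) : ℤ))) (tt p q (A + β * q) (R0 * q + A) ((1 : ℕ) : ℤ)) := by
      intro R0
      have h3 : ∑ e ∈ range 2, At p q lam (((1 : ℕ) : ℤ) * q + (A - A * ((0 : ℕ) : ℤ))) (tt p q (A + β * q) (R0 * q + A) e) =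
          ∑ e ∈ range p, At p q lam (((1 : ℕ) : ℤ) * q + (A - A * ((0 : ℕ) : ℤ))) (tt p q (A + β * q) (R0 * q + A) e) := by
        refine Finset.sum_subset (fun x hx => mem_range.2 (by have := mem_range.1 hx; omega)) ?_
        intro e he he2
        rw [mem_range] at he he2
        refine hhigh e ?_ he R0
        have h4 : A * 2 ≤ A * e := Nat.mul_le_mul_left A (by omega)
        omega
      rw [← h3, Finset.sum_range_succ, Finset.sum_range_one]
    have v0 : (((1 : ℤ) - β * ((0 : ℕ) : ℤ) : ℤ) : ZMod p).val = 1 := by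
      push_cast
      rw [mul_zero, sub_zero, ZMod.val_one]
    have v1 : (((1 : ℤ) - β * ((1 : ℕ) : ℤ) : ℤ) : ZMod p).val = 0 := by
      push_cast
      rw [hβ1, mul_one, sub_self, ZMod.val_zero]
    have w0 : (((1 : ℤ) - (A + β * q) - β * ((0 : ℕ) : ℤ) : ℤ) : ZMod p).val = p + 1 - q % p := by
      have e3 : (((1 : ℤ) - (A + β * q) - β * ((0 : ℕ) : ℤ) : ℤ) : ZMod p) = ((p + 1 - q % p : ℕ) : ZMod p) := by
        rw [Nat.cast_sub (by omega)]
        push_cast
        rw [ZMod.natCast_self, ZMod.natCast_mod, hA0, hβ1]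
        ring
      rw [e3, ZMod.val_natCast_of_lt (by omega)]
    have w1 : (((1 : ℤ) - (A + β * q) - β * ((1 : ℕ) : ℤ) : ℤ) : ZMod p).val = p - q % p := by
      have e3 : (((1 : ℤ) - (A + β * q) - β * ((1 : ℕ) : ℤ) : ℤ) : ZMod p) = ((p - q % p : ℕ) : ZMod p) := by
        rw [Nat.cast_sub (by omega)]
        push_cast
        rw [ZMod.natCast_self, ZMod.natCast_mod, hA0, hβ1]
        ring
      rw [e3, ZMod.val_natCast_of_lt (by omega)]
    have hAqZ : (A : ℤ) < q := by exact_mod_cast hAq2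
    have hA0Z : (0 : ℤ) ≤ A := by positivity
    have hq0Z : (0 : ℤ) ≤ q := by positivity
    refine ⟨1 * q + A, ((1 : ℕ) : ℤ) * q + (A - A * ((0 : ℕ) : ℤ)), by push_cast; linarith, ?_, ?_⟩
    · have h3 : (2 : ℤ) * q ≤ p * q := mul_le_mul_of_nonneg_right (by exact_mod_cast hp1) hq0Z
      push_cast
      linarith
    · unfold SS
      have e1 : (1 * (q : ℤ) + A - (A + β * q) * q) = (1 - (A + β * q)) * q + A := by ring
      rw [Finset.sum_sub_distrib, hs 1, e1, hs, hlow 0 (by omega) 1, hlow 1 (by omega) 1, hlow 0 (by omega), hlow 1 (by omega),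
        v0, v1, w0, w1, if_pos (Or.inr ⟨rfl, le_rfl⟩), if_pos (Or.inl (by norm_num)), if_neg (by omega), if_neg (by omega)]
      norm_num
  · -- the generic case
    have hn2 : 2 ≤ n := by omega
    obtain ⟨W, hW⟩ : ∃ W : ℕ, W = ((β : ZMod p) * (q : ZMod p)).val := ⟨_, rfl⟩
    have hWp : W < p := by rw [hW]; exact ZMod.val_lt _
    have hWc : (W : ZMod p) = (β : ZMod p) * (q : ZMod p) := by rw [hW, ZMod.natCast_zmod_val]
    have hW0 : 0 < W := by
      rcases Nat.eq_zero_or_pos W with h | h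
      · exfalso
        rw [h, Nat.cast_zero] at hWc
        exact (hβ.mul hQu).ne_zero hWc.symm
      · exact h
    have hWn : W * n ≡ q % p [MOD p] := by
      rw [← ZMod.natCast_eq_natCast_iff]
      push_cast
      rw [hWc, hnc, ZMod.natCast_mod]
      linear_combination (q : ZMod p) * hν
    obtain ⟨a, a1, a2, hcase⟩ := find_row h1 h2 hn2 hnp hW0 hWp hWn
    obtain ⟨y, hy⟩ : ∃ y : ZMod p, y = ν * (a : ZMod p) := ⟨_, rfl⟩
    have hyv : y.val = (a * n) % p := by
      rw [hy, ← hnc, ← Nat.cast_mul, ZMod.val_natCast, Nat.mul_comm]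
    rw [← hyv] at hcase
    have hyp : y.val < p := ZMod.val_lt y
    have hyc : ((y.val : ℕ) : ZMod p) = y := ZMod.natCast_zmod_val y
    have ha2 : (a : ZMod p) = (β : ZMod p) * y := by
      rw [hy]
      linear_combination (-(a : ZMod p)) * hν
    -- the column
    have hpos : ∃ (c0 M : ℕ) (σ : ℤ), Pos p lam c0 M σ ∧ A * (p - 2) ≤ c0 ∧ c0 < A * (p - 1) ∧ a < M ∧
        (σ = 1 ∨ σ = -1) := by
      have e : A * (p - 1) = A * (p - 2) + A := by
        have h3 : p - 1 = p - 2 + 1 := by omega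
        rw [h3]
        ring
      have hdvd : ((A * (p - 2) : ℕ) : ZMod p) = 0 := by
        rw [Nat.cast_mul, hA0, zero_mul]
      rcases Nat.lt_or_ge a (lam : ZMod p).val with h | h
      · exact ⟨A * (p - 2), _, 1, pos_zero hp1 hL0 hdvd, le_rfl, by omega, h, Or.inl rfl⟩
      · refine ⟨A * (p - 2) + 1, _, -1, pos_one hL0 ?_, by omega, by omega, by omega, Or.inr rfl⟩
        rw [Nat.cast_add, hdvd, Nat.cast_one, zero_add]
    obtain ⟨c0, M, σ, P, hc1, hc2, haM, hσ⟩ := hpos
    have hc0 : c0 < q := lt_trans hc2 hAq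
    have hap : a < p := by omega
    have hT : ∀ f : ℕ, f + 2 ≤ p → (0 : ℤ) ≤ a * q + (c0 - A * f) ∧ (a : ℤ) * q + (c0 - A * f) < p * q := by
      intro f hf
      have h3 : A * f ≤ c0 := le_trans (Nat.mul_le_mul_left A (by omega)) hc1
      have h3Z : (A : ℤ) * f ≤ c0 := by exact_mod_cast h3
      have h4Z : (c0 : ℤ) < q := by exact_mod_cast hc0
      have h5 : (0 : ℤ) ≤ A * f := by positivity
      have h6 : (0 : ℤ) ≤ a * q := by positivity
      have h7 : ((a : ℤ) + 1) * q ≤ p * q := mul_le_mul_of_nonneg_right (by exact_mod_cast hap) (by positivity)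
      constructor <;> linarith
    have hcast : ∀ e : ℕ, e < p → ∀ x : ZMod p, (e : ZMod p) = x → x.val = e := by
      intro e he x hx
      rw [← hx, ZMod.val_natCast_of_lt he]
    have hQ : (((q % p : ℕ)) : ZMod p) = (q : ZMod p) := ZMod.natCast_mod q p
    -- a row of the second kind
    have hrow : ∀ e : ℕ, e + 2 ≤ p → (-((β : ZMod p) * (1 + e))).val = a → e + y.val + 1 = p := by
      intro e he h
      have h3 : -((β : ZMod p) * (1 + e)) = (a : ZMod p) := by
        rw [← h, ZMod.natCast_zmod_val]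
      have h4 : (e : ZMod p) = -y - 1 := by
        have h5 : (β : ZMod p) * ((e : ZMod p) + 1 + y) = 0 := by
          rw [ha2] at h3
          linear_combination -h3
        have h6 := (hβ.mul_right_eq_zero).1 h5
        linear_combination h6
      have h5 := hcast e (by omega) _ h4
      rw [val_neg_sub_one] at h5
      omega
    -- a row of the first kind
    have hrowX : ∀ (x : ZMod p) (g : ZMod p), x = (β : ZMod p) * g → ∀ e : ℕ, e + 2 ≤ p →
        (x - (β : ZMod p) * (1 + e)).val = a → (g - 1 - y).val = e := by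
      intro x g hx e he h
      refine hcast e (by omega) _ ?_
      have h3 : x - (β : ZMod p) * (1 + e) = (a : ZMod p) := by
        rw [← h, ZMod.natCast_zmod_val]
      have h5 : (β : ZMod p) * (g - 1 - y - (e : ZMod p)) = 0 := by
        rw [ha2, hx] at h3
        linear_combination h3
      have h6 := (hβ.mul_right_eq_zero).1 h5
      linear_combination -h6
    rcases hcase with ⟨haW, hq⟩ | ⟨haW, hq⟩
    · obtain ⟨f, hf⟩ : ∃ f : ℕ, f = ((q : ZMod p) - 1 - y).val := ⟨_, rfl⟩
      have hfp : f < p := by rw [hf]; exact ZMod.val_lt _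
      have hfc : (f : ZMod p) = (q : ZMod p) - 1 - y := by rw [hf, ZMod.natCast_zmod_val]
      have hf2 : f + 2 ≤ p := by
        by_contra h
        have h3 : f + 1 = p := by omega
        have h4 : ((f + 1 : ℕ) : ZMod p) = 0 := by rw [h3, ZMod.natCast_self]
        push_cast at h4
        rw [hfc] at h4
        have h5 : (a : ZMod p) = (W : ZMod p) := by
          rw [ha2, hWc]
          linear_combination (-(β : ZMod p)) * h4
        have := cast_inj hap hWp h5
        omega
      have s1 := sumX (R0 := β * ((q : ℤ) - 1)) (x := (β : ZMod p) * (q : ZMod p)) hp1 hl hA A0 hAq P hc0 hc1 hc2 hβ hf2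
        haM hap (by push_cast; ring) (by rw [← hW]; exact haW) (fun e he h => by
          rw [hf]
          exact (hrowX _ _ rfl e he h).le)
      have s2 := sumY (R0 := β * ((q : ℤ) - 1) - (A + β * q)) hp1 hl hA A0 hAq P hc0 hc1 hc2 hβ hf2
        haM hap (by omega) (by push_cast; rw [hA0]; ring) (fun e he h => by
          have h3 := hrow e he h
          have h4 : ((e + q % p : ℕ) : ZMod p) = (q : ZMod p) - 1 - y := by
            have h5 : ((e + y.val + 1 : ℕ) : ZMod p) = 0 := by rw [h3, ZMod.natCast_self]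
            push_cast at h5
            rw [hyc] at h5
            push_cast
            rw [hQ]
            linear_combination h5
          have h6 := hcast _ (by omega) _ h4
          rw [hf, h6]
          omega)
      refine ⟨β * ((q : ℤ) - 1) * q + c0, a * q + (c0 - A * f), (hT f hf2).1, (hT f hf2).2, ?_⟩
      have e1 : β * ((q : ℤ) - 1) * q + c0 - (A + β * q) * q = (β * ((q : ℤ) - 1) - (A + β * q)) * q + c0 := by ring
      unfold SS
      rw [Finset.sum_sub_distrib, s1, e1, s2]
      rcases hσ with h | h <;> rw [h]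
      · have e2 : ((a : ℤ) + 1) * 1 - (a - 1) * 1 = 2 := by ring
        rw [e2]
        norm_num
      · have e2 : ((a : ℤ) + 1) * -1 - (a - 1) * -1 = -2 := by ring
        rw [e2]
        norm_num
    · obtain ⟨f, hf⟩ : ∃ f : ℕ, f = (-(q : ZMod p) - 1 - y).val := ⟨_, rfl⟩
      have hfp : f < p := by rw [hf]; exact ZMod.val_lt _
      have hfc : (f : ZMod p) = -(q : ZMod p) - 1 - y := by rw [hf, ZMod.natCast_zmod_val]
      have hf2 : f + 2 ≤ p := by
        by_contra h
        have h3 : f + 1 = p := by omega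
        have h4 : ((f + 1 : ℕ) : ZMod p) = 0 := by rw [h3, ZMod.natCast_self]
        push_cast at h4
        rw [hfc] at h4
        have h5 : ((a + W : ℕ) : ZMod p) = 0 := by
          push_cast
          rw [ha2, hWc]
          linear_combination (-(β : ZMod p)) * h4
        rw [ZMod.natCast_eq_zero_iff] at h5
        exact absurd (Nat.le_of_dvd (by omega) h5) (by omega)
      have hxv : (-((β : ZMod p) * (q : ZMod p))).val = p - W := by
        have hne : NeZero ((β : ZMod p) * (q : ZMod p)) := ⟨(hβ.mul hQu).ne_zero⟩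
        rw [ZMod.val_neg_of_ne_zero, ← hW]
      have s1 := sumY (R0 := -β) hp1 hl hA A0 hAq P hc0 hc1 hc2 hβ hf2
        haM hap (by omega) (by push_cast; ring) (fun e he h => by
          have h3 := hrow e he h
          have h4 : ((e + (p - q % p) : ℕ) : ZMod p) = -(q : ZMod p) - 1 - y := by
            have h5 : ((e + y.val + 1 : ℕ) : ZMod p) = 0 := by rw [h3, ZMod.natCast_self]
            push_cast at h5
            rw [hyc] at h5
            rw [Nat.cast_add, Nat.cast_sub (by omega), ZMod.natCast_self, hQ]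
            linear_combination h5
          have h6 := hcast _ (by omega) _ h4
          rw [hf, h6]
          omega)
      have s2 := sumX (R0 := -β - (A + β * q)) (x := -((β : ZMod p) * (q : ZMod p))) hp1 hl hA A0 hAq P hc0 hc1 hc2 hβ hf2
        haM hap (by push_cast; rw [hA0]; ring) (by rw [hxv]; omega) (fun e he h => by
          rw [hf]
          exact (hrowX _ (-(q : ZMod p)) (by ring) e he h).le)
      refine ⟨-β * q + c0, a * q + (c0 - A * f), (hT f hf2).1, (hT f hf2).2, ?_⟩
      have e1 : -β * (q : ℤ) + c0 - (A + β * q) * q = (-β - (A + β * q)) * q + c0 := by ring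
      unfold SS
      rw [Finset.sum_sub_distrib, s1, e1, s2]
      rcases hσ with h | h <;> rw [h]
      · have e2 : ((a : ℤ) - 1) * 1 - (a + 1) * 1 = -2 := by ring
        rw [e2]
        norm_num
      · have e2 : ((a : ℤ) - 1) * -1 - (a + 1) * -1 = 2 := by ring
        rw [e2]
        norm_num

end Pool.Agent.H89.TL
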