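import Pool.Agent.H89.TL.Main
import Pool.Agent.H89.TL.PS2

/-!
MP_fd220b_nt: the inverse of `r` modulo `q` is small and divisible by `p`: a coefficient of absolute value at
least two.
-/

set_option autoImplicit false

namespace Pool.Agent.H89.TL

open Finset Polynomial Pool.Agent.H84.FL Pool.Agent.H89.FP

/-- a coefficient of absolute value at least two, `p ∣ s` -/
theorem coeff_ps {p q r : ℕ} {s t : ℤ} (hp : 1 < p) (hpq : p < q) (hqr : q < r) (c1 : p.Coprime q)
    (c2 : p.Coprime r) (hs : s * r = 1 + t * q) (hps : (p : ℤ) ∣ s)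
    (hsq : |s| * (p - 1) < q) {F : ℤ[X]} (hF : IsIE p q r F) (h1 : 2 ≤ q % p) (h2 : q % p + 2 ≤ p) :
    ∃ n : ℕ, 2 ≤ |F.coeff n| := by
  have : NeZero p := ⟨by omega⟩
  -- the inverse of `q`
  obtain ⟨lam, hl⟩ : ∃ lam : ℤ, (q : ℤ) * lam ≡ 1 [ZMOD p] := by
    refine ⟨(((q : ZMod p)⁻¹).val : ℤ), ?_⟩
    rw [← ZMod.intCast_eq_intCast_iff]
    push_cast
    rw [ZMod.natCast_zmod_val]
    exact ZMod.coe_mul_inv_eq_one q c1.symm
  -- the inverse of `r` modulo `p`
  have hrc : IsCoprime (r : ℤ) (p : ℤ) := (Nat.isCoprime_iff_coprime).2 c2.symm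
  obtain ⟨r', v, hr'⟩ := hrc
  have hw : (r : ℤ) * (s + -(t * r') * q) ≡ 1 [ZMOD p * q] := by
    rw [Int.modEq_iff_dvd]
    exact ⟨-(t * v), by linear_combination -hs + t * q * hr'⟩
  have hr'u : IsCoprime r' (p : ℤ) := ⟨r, v, by linear_combination hr'⟩
  have hpt : IsCoprime t (p : ℤ) := by
    obtain ⟨c, hc⟩ := hps
    exact ⟨-q, c * r, by rw [hc] at hs; linear_combination hs⟩
  have hβ : IsUnit ((-(t * r') : ℤ) : ZMod p) := isUnit_of_coprime (IsCoprime.neg_left (hpt.mul_left hr'u))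
  have hs0 : s ≠ 0 := by
    rintro rfl
    rw [zero_mul] at hs
    have h3 : (q : ℤ) ∣ 1 := ⟨-t, by linear_combination -hs⟩
    have h4 := Int.le_of_dvd (by norm_num) h3
    have h5 : (1 : ℤ) < q := by exact_mod_cast (by omega : 1 < q)
    linarith
  have hp1 : ((p - 1 : ℕ) : ℤ) = p - 1 := by
    rw [Nat.cast_sub (by omega)]
    simp
  refine exists_coeff (w := s + -(t * r') * q) (by omega) hpq hqr hl hw hF ?_
  rcases le_total 0 s with h0 | h0
  · obtain ⟨A, rfl⟩ := Int.eq_ofNat_of_zero_le h0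
    rw [abs_of_nonneg h0, ← hp1] at hsq
    have hA : p ∣ A := by exact_mod_cast hps
    have hA0 : 0 < A := by
      rcases Nat.eq_zero_or_pos A with h | h
      · rw [h] at hs0
        exact absurd rfl hs0
      · exact h
    exact big_ps (A := A) (β := -(t * r')) hp hl hA hA0 (by exact_mod_cast hsq) hβ h1 h2
  · obtain ⟨A, hA⟩ := Int.eq_ofNat_of_zero_le (neg_nonneg.2 h0)
    rw [abs_of_nonpos h0, hA, ← hp1] at hsq
    have e1 : s = -(A : ℤ) := by rw [← hA]; ring
    have hAd : p ∣ A := by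
      rw [e1, dvd_neg] at hps
      exact_mod_cast hps
    have hA0 : 0 < A := by
      rcases Nat.eq_zero_or_pos A with h | h
      · rw [e1, h] at hs0
        exact absurd (by simp) hs0
      · exact h
    have h3 := big_ps (A := A) (β := t * r') hp hl hAd hA0 (by exact_mod_cast hsq) (by
      push_cast at hβ ⊢
      exact (IsUnit.neg_iff _).1 hβ) h1 h2
    refine Big.neg ?_
    have e2 : -(s + -(t * r') * q) = A + t * r' * q := by
      rw [e1]
      ring
    rw [e2]
    exact h3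

end Pool.Agent.H89.TL
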