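import Pool.Agent.H89.TL.Red

/-!
MP_fd220b_nt: `w = A + β q` with small `A` divisible by `p`: values of absolute value at least two.
-/

set_option autoImplicit false

namespace Pool.Agent.H89.TL

open Finset Pool.Agent.H89.FP

variable {p : ℕ} [NeZero p]

/-- the value in the row `r` and the column `c` -/
theorem At_val {q : ℕ} {lam : ℤ} (hp1 : 1 < p) (hl : (q : ℤ) * lam ≡ 1 [ZMOD p]) (r c T : ℤ) (h0 : 0 ≤ c)
    (h1 : c < q) (hT : (r % p) * q + c ≤ T) :
    At p q lam T ((r % p) * q + c) =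
        seg 1 0 (lam : ZMod p).val ((r : ZMod p) + (lam : ZMod p) * (c : ZMod p)) -
          seg 1 0 (lam : ZMod p).val ((lam : ZMod p) * (c : ZMod p) - 1) := by
  obtain ⟨ρ, hρ⟩ : ∃ ρ : ℕ, ρ = ((r : ℤ) : ZMod p).val := ⟨_, rfl⟩
  have hρp : ρ < p := by rw [hρ]; exact ZMod.val_lt _
  have hρZ : (ρ : ℤ) = r % p := by rw [hρ]; exact ZMod.val_intCast r
  have hρc : (ρ : ZMod p) = (r : ZMod p) := by rw [hρ, ZMod.natCast_zmod_val]
  rw [← hρZ] at hT ⊢
  rw [At_bb (R := ρ) hp1 hl (by linarith) (by linarith) hT]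
  have hql : ((q : ℤ) : ZMod p) * (lam : ZMod p) = 1 := cast_lam hl
  push_cast at hql
  have hbb : ∀ x : ZMod p, bb p (lam : ZMod p) ρ x = seg 1 0 (ρ + 1) ((lam : ZMod p) * x) := by
    intro x
    rw [seg_val (by omega)]
    unfold bb
    simp only [Nat.lt_succ_iff]
  rw [hbb, hbb]
  have e1 : (lam : ZMod p) * (((ρ : ℤ) * (q : ℤ) + c : ℤ) : ZMod p) = (r : ZMod p) + (lam : ZMod p) * (c : ZMod p) := by
    push_cast
    rw [hρc]
    linear_combination (r : ZMod p) * hql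
  have e2 : (lam : ZMod p) * ((((ρ : ℤ) * (q : ℤ) + c : ℤ) : ZMod p) - 1) =
      (r : ZMod p) + (lam : ZMod p) * (c : ZMod p) - (lam : ZMod p) := by
    rw [mul_sub, e1, mul_one]
  rw [e1, e2, seg_sub]
  have h3 := seg_exch (1 : ZMod p) 0 (ρ + 1) (lam : ZMod p).val ((r : ZMod p) + (lam : ZMod p) * (c : ZMod p))
  rw [ZMod.natCast_zmod_val, mul_one] at h3
  rw [h3]
  congr 1
  have e3 : (lam : ZMod p) * (c : ZMod p) - 1 = (r : ZMod p) + (lam : ZMod p) * (c : ZMod p) - ((r : ZMod p) + 1) := by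
    ring
  rw [e3, seg_sub]
  congr 1
  push_cast
  rw [hρc]
  ring

/-- the values in the column class of `c0`, in the rows before `M` -/
structure Pos (p : ℕ) (lam : ℤ) (c0 M : ℕ) (σ : ℤ) : Prop where
  d0 : ∀ ρ : ℕ, ρ < M → seg 1 0 (lam : ZMod p).val ((ρ : ZMod p) + (lam : ZMod p) * (c0 : ZMod p)) -
    seg 1 0 (lam : ZMod p).val ((lam : ZMod p) * (c0 : ZMod p) - 1) = σ
  d1 : ∀ ρ : ℕ, ρ + 1 < M → seg 1 0 (lam : ZMod p).val ((ρ : ZMod p) + (lam : ZMod p) * (c0 : ZMod p) + 1) -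
    seg 1 0 (lam : ZMod p).val ((lam : ZMod p) * (c0 : ZMod p)) = 0

theorem V_low {q A c0 M : ℕ} {lam β σ : ℤ} (hp1 : 1 < p) (hl : (q : ℤ) * lam ≡ 1 [ZMOD p]) (hA : p ∣ A)
    (A0 : 0 < A) (P : Pos p lam c0 M σ) (hc0 : c0 < q) {e f a : ℕ} (he : A * e ≤ c0) (hf : A * f ≤ c0) (ha : a < M)
    (R0 : ℤ) :
    At p q lam (a * q + (c0 - A * f)) (tt p q (A + β * q) (R0 * q + c0) e) =
      if ((R0 - β * e : ℤ) : ZMod p).val < a ∨ (((R0 - β * e : ℤ) : ZMod p).val = a ∧ f ≤ e) then σ else 0 := by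
  have hp0 : (0 : ℤ) < p := by exact_mod_cast (by omega : 0 < p)
  have heZ : (A : ℤ) * e ≤ c0 := by exact_mod_cast he
  have hfZ : (A : ℤ) * f ≤ c0 := by exact_mod_cast hf
  have hcZ : (c0 : ℤ) < q := by exact_mod_cast hc0
  have he0 : (0 : ℤ) ≤ A * e := by positivity
  have hf0 : (0 : ℤ) ≤ A * f := by positivity
  have e1 : tt p q (A + β * q) (R0 * q + c0) e = ((R0 - β * e) % p) * q + (c0 - A * e) := by
    unfold tt
    rw [← row_emod hp0 (by linarith) (by linarith)]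
    congr 1
    ring
  rw [e1]
  obtain ⟨ρ, hρ⟩ : ∃ ρ : ℕ, ρ = ((R0 - β * e : ℤ) : ZMod p).val := ⟨_, rfl⟩
  have hρZ : (ρ : ℤ) = (R0 - β * e) % p := by rw [hρ]; exact ZMod.val_intCast _
  have hρc : ((R0 - β * e : ℤ) : ZMod p) = (ρ : ZMod p) := by rw [hρ, ZMod.natCast_zmod_val]
  rw [← hρ]
  have hcond : ((R0 - β * e) % p) * q + (c0 - A * e) ≤ a * q + (c0 - A * f) ↔ ρ < a ∨ (ρ = a ∧ f ≤ e) := by
    rw [← hρZ]
    constructor
    · intro h
      rcases lt_trichotomy ρ a with h1 | h1 | h1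
      · exact Or.inl h1
      · right
        refine ⟨h1, ?_⟩
        rw [h1] at h
        have h2 : (A : ℤ) * f ≤ A * e := by linarith
        have h3 : A * f ≤ A * e := by exact_mod_cast h2
        exact Nat.le_of_mul_le_mul_left h3 A0
      · exfalso
        have h2 : (a : ℤ) + 1 ≤ ρ := by exact_mod_cast h1
        have h3 : ((a : ℤ) + 1) * q ≤ ρ * q := mul_le_mul_of_nonneg_right h2 (by positivity)
        linarith
    · rintro (h | ⟨h, h2⟩)
      · have h2 : (ρ : ℤ) + 1 ≤ a := by exact_mod_cast h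
        have h3 : ((ρ : ℤ) + 1) * q ≤ a * q := mul_le_mul_of_nonneg_right h2 (by positivity)
        linarith
      · rw [h]
        have h3 : A * f ≤ A * e := Nat.mul_le_mul_left A h2
        have h4 : (A : ℤ) * f ≤ A * e := by exact_mod_cast h3
        linarith
  by_cases hc : ρ < a ∨ (ρ = a ∧ f ≤ e)
  · rw [if_pos hc, At_val hp1 hl _ _ _ (by linarith) (by linarith) (hcond.2 hc)]
    have hA0 : (A : ZMod p) = 0 := (ZMod.natCast_eq_zero_iff A p).2 hA
    have e2 : (((c0 : ℤ) - A * e : ℤ) : ZMod p) = (c0 : ZMod p) := by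
      push_cast
      rw [hA0]
      ring
    rw [e2, hρc]
    exact P.d0 ρ (by omega)
  · rw [if_neg hc]
    exact At_gt (lt_of_not_ge fun h => hc (hcond.1 h))

theorem V_high {q A c0 M : ℕ} {lam β σ : ℤ} (hp1 : 1 < p) (hl : (q : ℤ) * lam ≡ 1 [ZMOD p]) (hA : p ∣ A)
    (hAq : A * (p - 1) < q) (P : Pos p lam c0 M σ) (hc0 : c0 < q) {e f a : ℕ} (he : c0 < A * e) (hep : e < p)
    (hf : A * f ≤ c0) (ha : a < M) (R0 : ℤ) :
    At p q lam (a * q + (c0 - A * f)) (tt p q (A + β * q) (R0 * q + c0) e) = 0 := by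
  have hp0 : (0 : ℤ) < p := by exact_mod_cast (by omega : 0 < p)
  have heZ : (c0 : ℤ) < A * e := by exact_mod_cast he
  have hfZ : (A : ℤ) * f ≤ c0 := by exact_mod_cast hf
  have hcZ : (c0 : ℤ) < q := by exact_mod_cast hc0
  have hf0 : (0 : ℤ) ≤ A * f := by positivity
  have heq : A * e < q := lt_of_le_of_lt (Nat.mul_le_mul_left A (by omega)) hAq
  have heqZ : (A : ℤ) * e < q := by exact_mod_cast heq
  have hc00 : (0 : ℤ) ≤ c0 := by positivity
  have e1 : tt p q (A + β * q) (R0 * q + c0) e = ((R0 - β * e - 1) % p) * q + (c0 - A * e + q) := by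
    unfold tt
    rw [← row_emod hp0 (by linarith) (by linarith)]
    congr 1
    ring
  rw [e1]
  obtain ⟨ρ, hρ⟩ : ∃ ρ : ℕ, ρ = ((R0 - β * e - 1 : ℤ) : ZMod p).val := ⟨_, rfl⟩
  have hρZ : (ρ : ℤ) = (R0 - β * e - 1) % p := by rw [hρ]; exact ZMod.val_intCast _
  have hρc : ((R0 - β * e - 1 : ℤ) : ZMod p) = (ρ : ZMod p) := by rw [hρ, ZMod.natCast_zmod_val]
  by_cases hc : ((R0 - β * e - 1) % p) * q + (c0 - A * e + q) ≤ a * q + (c0 - A * f)
  · rw [At_val hp1 hl _ _ _ (by linarith) (by linarith) hc]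
    have h1 : ρ < a := by
      by_contra h
      have h2 : (a : ℤ) ≤ ρ := by exact_mod_cast not_lt.1 h
      have h3 : (a : ℤ) * q ≤ ρ * q := mul_le_mul_of_nonneg_right h2 (by positivity)
      rw [← hρZ] at hc
      linarith
    have hA0 : (A : ZMod p) = 0 := (ZMod.natCast_eq_zero_iff A p).2 hA
    have hql : ((q : ℤ) : ZMod p) * (lam : ZMod p) = 1 := cast_lam hl
    push_cast at hql
    have e2 : (lam : ZMod p) * (((c0 : ℤ) - A * e + q : ℤ) : ZMod p) = (lam : ZMod p) * (c0 : ZMod p) + 1 := by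
      push_cast
      rw [hA0]
      linear_combination hql
    rw [e2, hρc]
    have h2 := P.d1 ρ (by omega)
    rw [add_sub_cancel_right, ← add_assoc]
    exact h2
  · exact At_gt (lt_of_not_ge hc)

/-- the sum over the window with the rows `x - β (1 + e)` -/
theorem sumX {q A c0 M : ℕ} {lam β σ : ℤ} (hp1 : 1 < p) (hl : (q : ℤ) * lam ≡ 1 [ZMOD p]) (hA : p ∣ A)
    (A0 : 0 < A) (hAq : A * (p - 1) < q) (P : Pos p lam c0 M σ) (hc0 : c0 < q) (h1 : A * (p - 2) ≤ c0)
    (h2 : c0 < A * (p - 1)) (hβ : IsUnit (β : ZMod p)) {f a : ℕ} (hf : f + 2 ≤ p) (ha : a < M) (hap : a < p) {R0 : ℤ}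
    {x : ZMod p} (hR0 : (R0 : ZMod p) = x - β) (hx : a < x.val)
    (hfa : ∀ e : ℕ, e + 2 ≤ p → (x - (β : ZMod p) * (1 + e)).val = a → f ≤ e) :
    ∑ e ∈ range p, At p q lam (a * q + (c0 - A * f)) (tt p q (A + β * q) (R0 * q + c0) e) = (a + 1) * σ := by
  have hfc : A * f ≤ c0 := le_trans (Nat.mul_le_mul_left A (by omega)) h1
  have h3 := sum_rows hβ ((β : ZMod p) - x) (R := a + 1) (by omega) (fun _ => σ)
  rw [Finset.sum_const, card_range, nsmul_eq_mul] at h3
  push_cast at h3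
  rw [← h3]
  refine Finset.sum_congr rfl fun e he => ?_
  rw [mem_range] at he
  have e1 : -((β : ZMod p) * (e : ZMod p)) - ((β : ZMod p) - x) = x - (β : ZMod p) * (1 + e) := by ring
  rw [e1]
  by_cases hep : e + 2 ≤ p
  · rw [V_low hp1 hl hA A0 P hc0 (le_trans (Nat.mul_le_mul_left A (by omega)) h1) hfc ha]
    have e2 : ((R0 - β * e : ℤ) : ZMod p) = x - (β : ZMod p) * (1 + e) := by
      push_cast
      rw [hR0]
      ring
    rw [e2]
    congr 1
    apply propext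
    have := hfa e hep
    constructor
    · rintro (h | ⟨h, -⟩) <;> omega
    · intro h
      rcases Nat.lt_or_ge (x - (β : ZMod p) * (1 + e)).val a with h4 | h4
      · exact Or.inl h4
      · exact Or.inr ⟨by omega, this (by omega)⟩
  · have he1 : e = p - 1 := by omega
    rw [V_high hp1 hl hA hAq P hc0 (by rw [he1]; exact h2) he hfc ha, if_neg]
    have e3 : x - (β : ZMod p) * (1 + e) = x := by
      have h5 : (1 + (e : ZMod p)) = ((e + 1 : ℕ) : ZMod p) := by push_cast; ring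
      have h6 : e + 1 = p := by omega
      rw [h5, h6, ZMod.natCast_self, mul_zero, sub_zero]
    rw [e3]
    omega

/-- the sum over the window with the rows `- β (1 + e)` -/
theorem sumY {q A c0 M : ℕ} {lam β σ : ℤ} (hp1 : 1 < p) (hl : (q : ℤ) * lam ≡ 1 [ZMOD p]) (hA : p ∣ A)
    (A0 : 0 < A) (hAq : A * (p - 1) < q) (P : Pos p lam c0 M σ) (hc0 : c0 < q) (h1 : A * (p - 2) ≤ c0)
    (h2 : c0 < A * (p - 1)) (hβ : IsUnit (β : ZMod p)) {f a : ℕ} (hf : f + 2 ≤ p) (ha : a < M) (hap : a < p)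
    (ha0 : 0 < a) {R0 : ℤ} (hR0 : (R0 : ZMod p) = -β)
    (hfa : ∀ e : ℕ, e + 2 ≤ p → (-((β : ZMod p) * (1 + e))).val = a → e < f) :
    ∑ e ∈ range p, At p q lam (a * q + (c0 - A * f)) (tt p q (A + β * q) (R0 * q + c0) e) = (a - 1) * σ := by
  have hfc : A * f ≤ c0 := le_trans (Nat.mul_le_mul_left A (by omega)) h1
  have h3 := sum_rows hβ (β : ZMod p) (R := a) (by omega) (fun _ => σ)
  have h4 := sum_rows hβ (β : ZMod p) (R := 1) (by omega) (fun _ => σ)
  rw [Finset.sum_const, card_range, nsmul_eq_mul] at h3 h4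
  push_cast at h4
  rw [sub_mul, ← h3, ← h4, ← Finset.sum_sub_distrib]
  refine Finset.sum_congr rfl fun e he => ?_
  rw [mem_range] at he
  have e1 : -((β : ZMod p) * (e : ZMod p)) - (β : ZMod p) = -((β : ZMod p) * (1 + e)) := by ring
  rw [e1]
  by_cases hep : e + 2 ≤ p
  · rw [V_low hp1 hl hA A0 P hc0 (le_trans (Nat.mul_le_mul_left A (by omega)) h1) hfc ha]
    have e2 : ((R0 - β * e : ℤ) : ZMod p) = -((β : ZMod p) * (1 + e)) := by
      push_cast
      rw [hR0]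
      ring
    rw [e2]
    have h5 : (-((β : ZMod p) * (1 + e))).val ≠ 0 := by
      intro h
      rw [ZMod.val_eq_zero, neg_eq_zero] at h
      have h6 := (hβ.mul_right_eq_zero).1 h
      have h7 : ((e + 1 : ℕ) : ZMod p) = 0 := by
        push_cast
        rw [add_comm]
        exact h6
      rw [ZMod.natCast_eq_zero_iff] at h7
      exact absurd (Nat.le_of_dvd (by omega) h7) (by omega)
    have h8 := hfa e hep
    have h9 : ((-((β : ZMod p) * (1 + e))).val < a ∨ ((-((β : ZMod p) * (1 + e))).val = a ∧ f ≤ e)) ↔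
        (-((β : ZMod p) * (1 + e))).val < a := by
      constructor
      · rintro (h | ⟨h, h'⟩)
        · exact h
        · exact absurd (h8 h) (by omega)
      · exact Or.inl
    rw [if_neg (show ¬ (-((β : ZMod p) * (1 + e))).val < 1 by omega), sub_zero]
    congr 1
    exact propext h9
  · have he1 : e = p - 1 := by omega
    have e3 : -((β : ZMod p) * (1 + e)) = 0 := by
      have h5 : (1 + (e : ZMod p)) = ((e + 1 : ℕ) : ZMod p) := by push_cast; ring
      have h6 : e + 1 = p := by omega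
      rw [h5, h6, ZMod.natCast_self, mul_zero, neg_zero]
    rw [V_high hp1 hl hA hAq P hc0 (by rw [he1]; exact h2) he hfc ha, e3, ZMod.val_zero, if_pos ha0,
      if_pos Nat.zero_lt_one, sub_self]

end Pool.Agent.H89.TL
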