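import Pool.Agent.H89.TL.CaseB
import Pool.Agent.H89.FP.SmallW2

/-!
MP_fd220b_nt: the triangle lemma and the sums `SS`, for `w = A + β q`, `A` small.
-/

set_option autoImplicit false

namespace Pool.Agent.H89.TL

open Finset Pool.Agent.H89.FP

variable {p : ℕ} [NeZero p]

theorem seg_val {u : ℕ} (hu : u ≤ p) (y : ZMod p) : seg 1 0 u y = if y.val < u then 1 else 0 := by
  have hcast : ((y.val : ℕ) : ZMod p) = y := ZMod.natCast_zmod_val y
  unfold seg
  split_ifs with h
  · rw [Finset.sum_eq_single y.val]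
    · rw [mul_one, zero_add, hcast, dl_self]
    · intro i hi hne
      rw [mem_range] at hi
      refine dl_ne fun h2 => hne ?_
      rw [mul_one, zero_add] at h2
      rw [h2, ZMod.val_natCast_of_lt (by omega)]
    · intro h2
      exact absurd (mem_range.2 h) h2
  · refine Finset.sum_eq_zero fun i hi => ?_
    rw [mem_range] at hi
    refine dl_ne fun h2 => h ?_
    rw [mul_one, zero_add] at h2
    rw [h2, ZMod.val_natCast_of_lt (by omega)]
    exact hi

/-- the value in the row `r` and the column `c` -/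
theorem At_row {q : ℕ} {lam : ℤ} (hp1 : 1 < p) (hl : (q : ℤ) * lam ≡ 1 [ZMOD p]) (r c : ℤ) (h0 : 0 ≤ c) (h1 : c < q) (R : ℕ) :
    At p q lam (R * q - 1) ((r % p) * q + c) =
      if ((r : ℤ) : ZMod p).val < R then
        seg 1 0 (lam : ZMod p).val ((r : ZMod p) + (lam : ZMod p) * (c : ZMod p)) -
          seg 1 0 (lam : ZMod p).val ((lam : ZMod p) * (c : ZMod p) - 1) else 0 := by
  obtain ⟨ρ, hρ⟩ : ∃ ρ : ℕ, ρ = ((r : ℤ) : ZMod p).val := ⟨_, rfl⟩
  have hρp : ρ < p := by rw [hρ]; exact ZMod.val_lt _
  have hρZ : (ρ : ℤ) = r % p := by rw [hρ]; exact ZMod.val_intCast r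
  have hρc : (ρ : ZMod p) = (r : ZMod p) := by rw [hρ, ZMod.natCast_zmod_val]
  have hq0 : (0 : ℤ) < q := by linarith
  rw [← hρ, ← hρZ]
  split_ifs with h
  · have hRZ : (ρ : ℤ) + 1 ≤ R := by exact_mod_cast h
    have h2 : ((ρ : ℤ) + 1) * q ≤ R * q := mul_le_mul_of_nonneg_right hRZ hq0.le
    rw [At_bb (R := ρ) hp1 hl (by linarith) (by linarith) (by linarith)]
    have hql : ((q : ℤ) : ZMod p) * (lam : ZMod p) = 1 := cast_lam hl
    push_cast at hql
    have hbb : ∀ x : ZMod p, bb p (lam : ZMod p) ρ x = seg 1 0 (ρ + 1) ((lam : ZMod p) * x) := by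
      intro x
      rw [seg_val (by omega)]
      unfold bb
      simp only [Nat.lt_succ_iff]
    rw [hbb, hbb]
    have e1 : (lam : ZMod p) * (((ρ : ℤ) * (q : ℤ) + c : ℤ) : ZMod p) = (r : ZMod p) + (lam : ZMod p) * (c : ZMod p) := by
      push_cast
      rw [hρc]
      linear_combination (r : ZMod p) * hql
    have e2 : (lam : ZMod p) * ((((ρ : ℤ) * (q : ℤ) + c : ℤ) : ZMod p) - 1) =
        (r : ZMod p) + (lam : ZMod p) * (c : ZMod p) - (lam : ZMod p) := by
      rw [mul_sub, e1, mul_one]
    rw [e1, e2, seg_sub]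
    have h3 := seg_exch (1 : ZMod p) 0 (ρ + 1) (lam : ZMod p).val ((r : ZMod p) + (lam : ZMod p) * (c : ZMod p))
    rw [ZMod.natCast_zmod_val, mul_one] at h3
    rw [h3]
    congr 1
    have e3 : (lam : ZMod p) * (c : ZMod p) - 1 = (r : ZMod p) + (lam : ZMod p) * (c : ZMod p) - ((r : ZMod p) + 1) := by
      ring
    rw [e3, seg_sub]
    congr 1
    push_cast
    rw [hρc]
    ring
  · have hRZ : (R : ℤ) ≤ ρ := by exact_mod_cast (not_lt.1 h)
    have h2 : (R : ℤ) * q ≤ ρ * q := mul_le_mul_of_nonneg_right hRZ hq0.le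
    exact At_gt (by linarith)

/-- reindexing by the rows -/
theorem sum_rows {B : ZMod p} (hB : IsUnit B) (w1 : ZMod p) {R : ℕ} (hR : R ≤ p) (g : ZMod p → ℤ) :
    ∑ e ∈ range p, (if (-(B * (e : ZMod p)) - w1).val < R then g (-(B * (e : ZMod p)) - w1) else 0) =
      ∑ i ∈ range R, g (i : ZMod p) := by
  have h1 := sum_range_mul hB.neg (fun x => if (x - w1).val < R then g (x - w1) else 0)
  have h2 := Equiv.sum_comp (Equiv.subRight w1) (fun x : ZMod p => if x.val < R then g x else 0)
  simp only [Equiv.subRight_apply] at h2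
  rw [h2, ← sum_range_cast] at h1
  have h3 : ∑ e ∈ range p, (if (-(B * (e : ZMod p)) - w1).val < R then g (-(B * (e : ZMod p)) - w1) else 0) =
      ∑ i ∈ range p, (if ((i : ZMod p)).val < R then g (i : ZMod p) else 0) := by
    rw [← h1]
    refine Finset.sum_congr rfl fun e _ => ?_
    have e1 : -(B * (e : ZMod p)) = (e : ZMod p) * -B := by ring
    rw [e1]
  rw [h3]
  obtain ⟨t, rfl⟩ := Nat.exists_eq_add_of_le hR
  rw [Finset.sum_range_add]
  have h4 : ∑ x ∈ range t, (if (((R + x : ℕ) : ZMod (R + t))).val < R then g ((R + x : ℕ) : ZMod (R + t)) else 0) = 0 := by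
    refine Finset.sum_eq_zero fun x hx => ?_
    rw [mem_range] at hx
    rw [if_neg]
    rw [ZMod.val_natCast_of_lt (by omega)]
    omega
  rw [h4, add_zero]
  refine Finset.sum_congr rfl fun x hx => ?_
  rw [mem_range] at hx
  rw [if_pos]
  rw [ZMod.val_natCast_of_lt (by omega)]
  exact hx

/-- values of absolute value at least two, for `w = A + β q` with small `A` -/
theorem big_of {q A : ℕ} {lam β : ℤ} (hp1 : 1 < p) (hq : A * (p - 1) + p ≤ q)
    (hl : (q : ℤ) * lam ≡ 1 [ZMOD p]) (hA : IsUnit (A : ZMod p)) (hβ : IsUnit (β : ZMod p))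
    (hw : IsUnit ((A : ZMod p) + (β : ZMod p) * (q : ZMod p))) : Big p q lam (A + β * q) := by
  have : Fact (1 < p) := ⟨hp1⟩
  by_contra hbig
  have hflat : ∀ j T : ℤ, 0 ≤ T → T < p * q → |SS p q lam (A + β * q) T j| ≤ 1 := by
    intro j T h0 h1
    by_contra h
    exact hbig ⟨j, T, h0, h1, by omega⟩
  set L : ZMod p := (lam : ZMod p) with hL
  set B : ZMod p := (β : ZMod p) with hB
  set Q : ZMod p := (q : ZMod p) with hQ
  set w1 : ZMod p := (A : ZMod p) + B * Q with hw1
  have hql : Q * L = 1 := by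
    have := cast_lam hl
    push_cast at this
    exact this
  have hL0 : IsUnit L := IsUnit.of_mul_eq_one Q (by rw [mul_comm]; exact hql)
  obtain ⟨B', hB'⟩ := hβ.exists_left_inv
  obtain ⟨κ, hκ⟩ : ∃ κ : ZMod p, κ * B = L * w1 := ⟨L * w1 * B', by linear_combination (L * w1) * hB'⟩
  have hκ0 : IsUnit κ := by
    have h : IsUnit (κ * B) := by
      rw [hκ]
      exact hL0.mul hw
    exact isUnit_of_mul_isUnit_left h
  have hκ2 : (κ - 1) * B = L * A := by
    rw [hw1] at hκ
    linear_combination hκ + B * hql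
  have hκ1 : IsUnit (κ - 1) := by
    have h : IsUnit ((κ - 1) * B) := by
      rw [hκ2]
      exact hL0.mul hA
    exact isUnit_of_mul_isUnit_left h
  set δ : ZMod p := (κ - 1) * w1 with hδ
  have hδ0 : IsUnit δ := hκ1.mul hw
  set J : ZMod p → ℤ := seg 1 0 L.val with hJ
  set E : ZMod p → ℤ := fun y => J y - J (y + δ) with hE
  have hEsum : ∑ y : ZMod p, E y = 0 := by
    have h := Equiv.sum_comp (Equiv.addRight δ) J
    simp only [Equiv.coe_addRight] at h
    rw [hE]
    simp only
    rw [Finset.sum_sub_distrib, h, sub_self]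
  have hEsum2 : ∑ y : ZMod p, -E (y - 1) = 0 := by
    have h := Equiv.sum_comp (Equiv.subRight (1 : ZMod p)) E
    simp only [Equiv.subRight_apply] at h
    rw [Finset.sum_neg_distrib, h, hEsum, neg_zero]
  obtain ⟨N2, hN2⟩ := exists_pot hκ0 hEsum
  obtain ⟨N3, hN3⟩ := exists_pot hκ1 (f := fun y => -E (y - 1)) hEsum2
  -- the sums
  have hP : ∀ (γ : ZMod p) (R : ℕ), R < p →
      |∑ i ∈ range R, (E (γ + (i : ZMod p) * κ) - E (γ + (i : ZMod p) * (κ - 1) - 1))| ≤ 1 := by
    intro γ R hR
    rcases Nat.eq_zero_or_pos R with hR0 | hR0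
    · rw [hR0]
      simp
    -- the position
    obtain ⟨x, hx⟩ : ∃ x : ℕ, x = (γ * Q - ((A * (p - 1) : ℕ) : ZMod p)).val := ⟨_, rfl⟩
    have hxp : x < p := by rw [hx]; exact ZMod.val_lt _
    obtain ⟨c0, hc0⟩ : ∃ c0 : ℕ, c0 = A * (p - 1) + x := ⟨_, rfl⟩
    have hc0γ : L * (c0 : ZMod p) = γ := by
      rw [hc0, Nat.cast_add, hx, ZMod.natCast_zmod_val]
      linear_combination γ * hql
    have hq0 : 0 < q := by omega
    have hcol : ∀ e : ℕ, e ∈ range p → (0 : ℤ) ≤ c0 - A * e ∧ (c0 : ℤ) - A * e < q := by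
      intro e he
      rw [mem_range] at he
      have h1 : A * e ≤ A * (p - 1) := Nat.mul_le_mul_left A (by omega)
      have h2 : A * e ≤ c0 := by omega
      have h3 : c0 < q := by omega
      have h2' : (A : ℤ) * e ≤ c0 := by exact_mod_cast h2
      have h3' : (c0 : ℤ) < q := by exact_mod_cast h3
      have h4 : (0 : ℤ) ≤ A * e := by positivity
      constructor <;> linarith
    have hp0 : (0 : ℤ) < p := by exact_mod_cast (by omega : 0 < p)
    have hT0 : (0 : ℤ) ≤ (R : ℤ) * q - 1 := by
      have : 1 ≤ R * q := Nat.mul_pos hR0 hq0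
      have h2 : (1 : ℤ) ≤ R * q := by exact_mod_cast this
      linarith
    have hT1 : (R : ℤ) * q - 1 < p * q := by
      have : R * q ≤ p * q := Nat.mul_le_mul_right q hR.le
      have h2 : (R : ℤ) * q ≤ p * q := by exact_mod_cast this
      linarith
    have h := hflat c0 (R * q - 1) hT0 hT1
    have hSS : SS p q lam (A + β * q) (R * q - 1) c0 =
        ∑ i ∈ range R, (E (γ + (i : ZMod p) * κ) - E (γ + (i : ZMod p) * (κ - 1) - 1)) := by
      unfold SS
      rw [Finset.sum_sub_distrib]
      have s1 : ∑ e ∈ range p, At p q lam (R * q - 1) (tt p q (A + β * q) c0 e) =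
          ∑ i ∈ range R, (J (γ + (i : ZMod p) * κ) - J (γ + (i : ZMod p) * (κ - 1) - 1)) := by
        rw [← sum_rows (B := B) hβ 0 hR.le (fun y => J (γ + y * κ) - J (γ + y * (κ - 1) - 1))]
        refine Finset.sum_congr rfl fun e he => ?_
        have hc := hcol e he
        have e1 : tt p q (A + β * q) c0 e = ((-(β * e)) % p) * q + (c0 - A * e) := by
          unfold tt
          rw [← row_emod hp0 hc.1 hc.2]
          congr 1
          ring
        rw [e1, At_row hp1 hl _ _ hc.1 hc.2]
        have e2 : ((-(β * e) : ℤ) : ZMod p) = -(B * (e : ZMod p)) - 0 := by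
          push_cast
          rw [hB]
          ring
        have e3 : (lam : ZMod p) * ((((c0 : ℤ) - A * e : ℤ)) : ZMod p) =
            γ + (-(B * (e : ZMod p)) - 0) * (κ - 1) := by
          push_cast
          rw [← hL]
          linear_combination hc0γ + (e : ZMod p) * hκ2
        rw [e3, e2]
        have e4 : -(B * (e : ZMod p)) - 0 + (γ + (-(B * (e : ZMod p)) - 0) * (κ - 1)) =
            γ + (-(B * (e : ZMod p)) - 0) * κ := by ring
        rw [e4]
      have s2 : ∑ e ∈ range p, At p q lam (R * q - 1) (tt p q (A + β * q) (c0 - (A + β * q) * q) e) =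
          ∑ i ∈ range R, (J (γ + (i : ZMod p) * κ + δ) - J (γ + (i : ZMod p) * (κ - 1) - 1 + δ)) := by
        rw [← sum_rows (B := B) hβ w1 hR.le (fun y => J (γ + y * κ + δ) - J (γ + y * (κ - 1) - 1 + δ))]
        refine Finset.sum_congr rfl fun e he => ?_
        have hc := hcol e he
        have e1 : tt p q (A + β * q) (c0 - (A + β * q) * q) e =
            ((-(β * e) - (A + β * q)) % p) * q + (c0 - A * e) := by
          unfold tt
          rw [← row_emod hp0 hc.1 hc.2]
          congr 1
          ring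
        rw [e1, At_row hp1 hl _ _ hc.1 hc.2]
        have e2 : ((-(β * e) - (A + β * q) : ℤ) : ZMod p) = -(B * (e : ZMod p)) - w1 := by
          push_cast
          rw [hB, hw1]
        have e3 : (lam : ZMod p) * ((((c0 : ℤ) - A * e : ℤ)) : ZMod p) =
            γ + (-(B * (e : ZMod p)) - w1) * (κ - 1) + δ := by
          push_cast
          rw [← hL, hδ]
          linear_combination hc0γ + (e : ZMod p) * hκ2
        rw [e3, e2]
        have e4 : -(B * (e : ZMod p)) - w1 + (γ + (-(B * (e : ZMod p)) - w1) * (κ - 1) + δ) =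
            γ + (-(B * (e : ZMod p)) - w1) * κ + δ := by ring
        have e5 : γ + (-(B * (e : ZMod p)) - w1) * (κ - 1) + δ - 1 =
            γ + (-(B * (e : ZMod p)) - w1) * (κ - 1) - 1 + δ := by ring
        rw [e4, e5]
      rw [s1, s2, ← Finset.sum_sub_distrib]
      refine Finset.sum_congr rfl fun i _ => ?_
      rw [hE]
      ring
    rw [hSS] at h
    exact h
  have key : Flat3 1 (κ - 1) (-κ) (fun x => -N2 x - N3 x) N2 N3 0 κ (-δ) L (-1) :=
    { sum := by ring
      h1 := isUnit_one
      h2 := hκ1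
      h3 := hκ0.neg
      um := hδ0.neg
      un := hL0
      hm := neg_ne_zero.2 hδ0.ne_zero
      hn := hL0.ne_zero
      ht := Or.inr rfl
      diag := fun x => by ring
      diag2 := fun x => by
        have h1 := hN2 (x - κ)
        have h2 := hN3 (x - (κ - 1))
        rw [sub_add_cancel] at h1 h2
        have e1 : x - (κ - 1) - 1 = x - κ := by ring
        rw [e1] at h2
        rw [← sub_eq_add_neg]
        linarith
      plane := fun x1 x2 x3 hx => by
        obtain ⟨R, hR, hRx⟩ := exists_nat hκ0 x1 x2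
        have hx3 : x3 = x1 + (R : ZMod p) * (κ - 1) := by
          have h1 : κ * (x3 - (x1 + (R : ZMod p) * (κ - 1))) = 0 := by
            rw [hRx] at hx
            linear_combination -hx
          exact sub_eq_zero.1 ((hκ0.mul_right_eq_zero).1 h1)
        have t1 : ∀ k : ℕ, N2 (x1 + (k : ZMod p) * κ) - N2 x1 = ∑ i ∈ range k, E (x1 + (i : ZMod p) * κ) := by
          intro k
          induction k with
          | zero => simp
          | succ k ih =>
            rw [Finset.sum_range_succ, ← ih, ← hN2]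
            have e : x1 + ((k + 1 : ℕ) : ZMod p) * κ = x1 + (k : ZMod p) * κ + κ := by
              push_cast
              ring
            rw [e]
            ring
        have t2 : ∀ k : ℕ, N3 (x1 + (k : ZMod p) * (κ - 1)) - N3 x1 =
            ∑ i ∈ range k, -E (x1 + (i : ZMod p) * (κ - 1) - 1) := by
          intro k
          induction k with
          | zero => simp
          | succ k ih =>
            rw [Finset.sum_range_succ, ← ih, ← hN3]
            have e : x1 + ((k + 1 : ℕ) : ZMod p) * (κ - 1) = x1 + (k : ZMod p) * (κ - 1) + (κ - 1) := by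
              push_cast
              ring
            rw [e]
            ring
        have h2 := hP x1 R hR
        have h3 : -N2 x1 - N3 x1 + N2 x2 + N3 x3 - 0 =
            ∑ i ∈ range R, (E (x1 + (i : ZMod p) * κ) - E (x1 + (i : ZMod p) * (κ - 1) - 1)) := by
          rw [hRx, hx3]
          have h4 := t1 R
          have h5 := t2 R
          rw [Finset.sum_neg_distrib] at h5
          rw [Finset.sum_sub_distrib]
          linarith
        rw [h3]
        exact h2
      ch := fun x => by
        have h1 := hN2 (x - κ)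
        have h2 := hN2 (x - 1 - κ)
        rw [sub_add_cancel] at h1 h2
        rw [← sub_eq_add_neg, ← sub_eq_add_neg]
        have h3 : E (x - κ) - E (x - 1 - κ) = chg κ (-δ) L x := by
          have e1 : x - 1 - κ = x - κ - 1 := by ring
          have e2 : x - κ - 1 + δ = x - κ + δ - 1 := by ring
          have h4 := seg_diff (1 : ZMod p) 0 L.val (x - κ)
          have h5 := seg_diff (1 : ZMod p) 0 L.val (x - κ + δ)
          rw [ZMod.natCast_zmod_val, mul_one, zero_add] at h4 h5
          rw [dl_add, dl_add, dl_sub, dl_sub] at h5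
          rw [dl_sub, dl_sub] at h4
          have e3 : 0 + κ = κ := by ring
          have e4 : 0 - δ + κ = κ + -δ := by ring
          have e5 : L - δ + κ = κ + -δ + L := by ring
          have e6 : L + κ = κ + L := by ring
          rw [e3, e6] at h4
          rw [e4, e5] at h5
          rw [hE]
          simp only
          rw [e1, e2]
          unfold chg
          rw [← hJ] at h4 h5
          linear_combination h4 - h5
        linear_combination -h1 + h2 - h3 }
  exact no_flat key

end Pool.Agent.H89.TL
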