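import Mathlib

/-!
MP_fd220b_nt, the triangle lemma: progressions in `ZMod p`, functions with given differences.
-/

set_option autoImplicit false

namespace Pool.Agent.H89.TL

open Finset

variable {p : ℕ}

/-- point mass -/
def dl (a x : ZMod p) : ℤ := if x = a then 1 else 0

theorem dl_nonneg (a x : ZMod p) : 0 ≤ dl a x := by
  unfold dl
  split_ifs <;> norm_num

theorem dl_self (a : ZMod p) : dl a a = 1 := if_pos rfl

theorem dl_ne {a x : ZMod p} (h : x ≠ a) : dl a x = 0 := if_neg h

theorem dl_sub (a x y : ZMod p) : dl a (x - y) = dl (a + y) x := by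
  unfold dl
  congr 1
  apply propext
  constructor <;> intro h
  · rw [← h]; ring
  · rw [h]; ring

theorem dl_add (a x y : ZMod p) : dl a (x + y) = dl (a - y) x := by
  unfold dl
  congr 1
  apply propext
  constructor <;> intro h
  · rw [← h]; ring
  · rw [h]; ring

/-- the number of `i < u` with `x = x0 + i d` -/
def seg (d x0 : ZMod p) (u : ℕ) (x : ZMod p) : ℤ := ∑ i ∈ range u, dl (x0 + (i : ZMod p) * d) x

theorem seg_nonneg (d x0 : ZMod p) (u : ℕ) (x : ZMod p) : 0 ≤ seg d x0 u x :=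
  Finset.sum_nonneg fun _ _ => dl_nonneg _ _

theorem seg_sub (d x0 : ZMod p) (u : ℕ) (x y : ZMod p) : seg d x0 u (x - y) = seg d (x0 + y) u x := by
  unfold seg
  refine Finset.sum_congr rfl fun i _ => ?_
  rw [dl_sub]
  congr 1
  ring

theorem seg_plus (d x0 : ZMod p) (u : ℕ) (x y : ZMod p) : seg d x0 u (x + y) = seg d (x0 - y) u x := by
  unfold seg
  refine Finset.sum_congr rfl fun i _ => ?_
  rw [dl_add]
  congr 1
  ring

theorem seg_diff (d x0 : ZMod p) (u : ℕ) (x : ZMod p) :
    seg d x0 u x - seg d x0 u (x - d) = dl x0 x - dl (x0 + (u : ZMod p) * d) x := by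
  rw [seg_sub]
  unfold seg
  rw [← Finset.sum_sub_distrib]
  have h := Finset.sum_range_sub' (fun i : ℕ => dl (x0 + (i : ZMod p) * d) x) u
  simp only [Nat.cast_zero, zero_mul, add_zero] at h
  rw [← h]
  refine Finset.sum_congr rfl fun i _ => ?_
  congr 2
  push_cast
  ring

theorem seg_add (d x0 : ZMod p) (u v : ℕ) (x : ZMod p) :
    seg d x0 (u + v) x = seg d x0 u x + seg d (x0 + (u : ZMod p) * d) v x := by
  unfold seg
  rw [Finset.sum_range_add]
  congr 1
  refine Finset.sum_congr rfl fun i _ => ?_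
  congr 1
  push_cast
  ring

/-- exchange of the roles of length and shift -/
theorem seg_exch (d x0 : ZMod p) (u v : ℕ) (x : ZMod p) :
    seg d x0 u x - seg d (x0 + (v : ZMod p) * d) u x = seg d x0 v x - seg d (x0 + (u : ZMod p) * d) v x := by
  have h1 := seg_add d x0 u v x
  have h2 := seg_add d x0 v u x
  rw [Nat.add_comm v u] at h2
  linarith

theorem seg_mem {d x0 x : ZMod p} {u i : ℕ} (hi : i < u) (h : x = x0 + (i : ZMod p) * d) : 1 ≤ seg d x0 u x := by
  unfold seg
  have h1 : dl (x0 + (i : ZMod p) * d) x = 1 := by rw [h, dl_self]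
  rw [← h1]
  exact Finset.single_le_sum (f := fun i : ℕ => dl (x0 + (i : ZMod p) * d) x) (fun _ _ => dl_nonneg _ _) (mem_range.2 hi)

theorem seg_zero {d x0 x : ZMod p} {u : ℕ} (h : ∀ i : ℕ, i < u → x ≠ x0 + (i : ZMod p) * d) : seg d x0 u x = 0 :=
  Finset.sum_eq_zero fun i hi => dl_ne (h i (mem_range.1 hi))

theorem mem_of_seg {d x0 x : ZMod p} {u : ℕ} (h : seg d x0 u x ≠ 0) : ∃ i : ℕ, i < u ∧ x = x0 + (i : ZMod p) * d := by
  by_contra hc
  push Not at hc
  exact h (seg_zero hc)

section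

variable [NeZero p]

theorem sum_dl (a : ZMod p) : ∑ x : ZMod p, dl a x = 1 := by
  unfold dl
  simp

theorem sum_seg (d x0 : ZMod p) (u : ℕ) : ∑ x : ZMod p, seg d x0 u x = u := by
  unfold seg
  rw [Finset.sum_comm]
  simp [sum_dl]

theorem exists_nat {d : ZMod p} (hd : IsUnit d) (x y : ZMod p) : ∃ k : ℕ, k < p ∧ y = x + (k : ZMod p) * d := by
  obtain ⟨i, hi⟩ := hd.exists_left_inv
  refine ⟨((y - x) * i).val, ZMod.val_lt _, ?_⟩
  rw [ZMod.natCast_zmod_val]
  linear_combination (x - y) * hi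

theorem const_of {d : ZMod p} (hd : IsUnit d) {f : ZMod p → ℤ} (h : ∀ x, f (x + d) = f x) (x y : ZMod p) :
    f x = f y := by
  have h1 : ∀ k : ℕ, f (x + (k : ZMod p) * d) = f x := by
    intro k
    induction k with
    | zero => simp
    | succ k ih =>
      have e : x + ((k + 1 : ℕ) : ZMod p) * d = x + (k : ZMod p) * d + d := by
        push_cast
        ring
      rw [e, h, ih]
  obtain ⟨k, -, rfl⟩ := exists_nat hd x y
  exact (h1 k).symm

theorem eq_of_diff {d : ZMod p} (hd : IsUnit d) {f g : ZMod p → ℤ} (h : ∀ x, f x - f (x - d) = g x - g (x - d))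
    (hs : ∑ x : ZMod p, f x = ∑ x : ZMod p, g x) (x : ZMod p) : f x = g x := by
  have h1 : ∀ y, f y - g y = f x - g x := by
    intro y
    refine const_of hd (f := fun y => f y - g y) (fun t => ?_) y x
    have := h (t + d)
    rw [add_sub_cancel_right] at this
    show f (t + d) - g (t + d) = f t - g t
    linarith
  have h2 : ∑ y : ZMod p, (f y - g y) = 0 := by
    rw [Finset.sum_sub_distrib, hs, sub_self]
  rw [Finset.sum_congr rfl (fun y _ => h1 y), Finset.sum_const, card_univ, ZMod.card, nsmul_eq_mul] at h2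
  have hp : (p : ℤ) ≠ 0 := by exact_mod_cast NeZero.ne p
  rcases mul_eq_zero.1 h2 with h3 | h3
  · exact absurd h3 hp
  · linarith

theorem sum_range_cast (g : ZMod p → ℤ) : ∑ i ∈ range p, g (i : ZMod p) = ∑ x : ZMod p, g x := by
  refine Finset.sum_nbij' (fun i : ℕ => (i : ZMod p)) (fun x : ZMod p => x.val) ?_ ?_ ?_ ?_ ?_
  · intro i _
    exact mem_univ _
  · intro x _
    exact mem_range.2 (ZMod.val_lt x)
  · intro i hi
    exact ZMod.val_natCast_of_lt (mem_range.1 hi)
  · intro x _
    exact ZMod.natCast_zmod_val x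
  · intro i _
    rfl

theorem sum_range_mul {d : ZMod p} (hd : IsUnit d) (f : ZMod p → ℤ) :
    ∑ i ∈ range p, f ((i : ZMod p) * d) = ∑ x : ZMod p, f x := by
  rw [sum_range_cast (fun x => f (x * d))]
  exact Equiv.sum_comp (Units.mulRight hd.unit) f

/-- a function with given differences -/
theorem exists_pot {d : ZMod p} (hd : IsUnit d) {f : ZMod p → ℤ} (hs : ∑ x : ZMod p, f x = 0) :
    ∃ N : ZMod p → ℤ, ∀ y, N (y + d) - N y = f y := by
  obtain ⟨c, hc⟩ := hd.exists_left_inv
  refine ⟨fun y => ∑ i ∈ range (y * c).val, f ((i : ZMod p) * d), fun y => ?_⟩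
  have e1 : (y + d) * c = y * c + 1 := by linear_combination hc
  have e2 : y = (((y * c).val : ℕ) : ZMod p) * d := by
    rw [ZMod.natCast_zmod_val]
    linear_combination (-y) * hc
  show ∑ i ∈ range ((y + d) * c).val, f ((i : ZMod p) * d) - ∑ i ∈ range (y * c).val, f ((i : ZMod p) * d) = f y
  rw [e1]
  set k := (y * c).val with hk
  have hkp : k < p := ZMod.val_lt _
  have e3 : (y * c + 1) = ((k + 1 : ℕ) : ZMod p) := by
    push_cast
    rw [hk, ZMod.natCast_zmod_val]
  rw [e3]
  rcases Nat.lt_or_ge (k + 1) p with h | h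
  · rw [ZMod.val_natCast_of_lt h, Finset.sum_range_succ, ← e2]
    ring
  · have h2 : k + 1 = p := by omega
    have h3 : ∑ i ∈ range (k + 1), f ((i : ZMod p) * d) = 0 := by
      rw [h2, sum_range_mul hd, hs]
    rw [Finset.sum_range_succ, ← e2] at h3
    rw [h2, ZMod.natCast_self, ZMod.val_zero, Finset.range_zero, Finset.sum_empty]
    linarith

end

end Pool.Agent.H89.TL
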